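import Mathlib
import Pool.Agent.Lib.MP_2194ec_nt.HilB

set_option autoImplicit false

/-!
# Theorem B (sharp exponent in the plane): definitions and statements of the modules
-/

namespace Pool.DynLehmer.SB
open MvPolynomial NumberField Pool.DynLehmer
open scoped Classical

/-- the values of the forms of degree `T` over `K` at a point `y` with coordinates in a
`K`-algebra -/
noncomputable def VW (K : Type) [Field K] {B : Type} [CommRing B] [Algebra K B] {ι : Type}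
    (y : ι → B) (T : ℕ) : Submodule K B :=
  (homogeneousSubmodule ι K T).map (aeval y : MvPolynomial ι K →ₐ[K] B).toLinearMap

/-- the Hilbert function over `K` of a point with coordinates in a `K`-algebra -/
noncomputable def HW (K : Type) [Field K] {B : Type} [CommRing B] [Algebra K B] {ι : Type}
    (y : ι → B) (T : ℕ) : ℕ := Module.finrank K (VW K y T)

/-- several points as one point with coordinates in a product of rings -/
def joint {m : ℕ} {L : Type} {ι : Type} (y : Fin m → ι → L) : ι → (Fin m → L) :=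
  fun t l => y l t

/-- the shift `Q(X) ↦ Q(X + Y)`, the inner variables are `X`, the outer variables are `Y` -/
noncomputable def shift {R : Type} [CommRing R] {ι : Type} :
    MvPolynomial ι R →ₐ[R] MvPolynomial ι (MvPolynomial ι R) :=
  aeval fun k => C (X k) + X k

/-- Hasse derivatives -/
noncomputable def hsd {R : Type} [CommRing R] {ι : Type} (α : ι →₀ ℕ) (Q : MvPolynomial ι R) :
    MvPolynomial ι R := coeff α (shift Q)

/-- module HASSE -/
def HasseStatement : Prop :=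
  (∀ (R : Type) [CommRing R] (ι : Type) [Fintype ι] (Q : MvPolynomial ι R) (u c : ι → R),
    eval u Q = ∑ α ∈ (shift Q).support, eval c (hsd α Q) * ∏ k, (u k - c k) ^ (α k)) ∧
  (∀ (R : Type) [CommRing R] (ι : Type) (α : ι →₀ ℕ) (P Q : MvPolynomial ι R),
    hsd α (P + Q) = hsd α P + hsd α Q) ∧
  (∀ (R : Type) [CommRing R] (ι : Type) (α : ι →₀ ℕ) (a : R) (Q : MvPolynomial ι R),
    hsd α (a • Q) = a • hsd α Q) ∧
  (∀ (R : Type) [CommRing R] (ι : Type) (α : ι →₀ ℕ) (Q : MvPolynomial ι R) (n : ℕ),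
    Q.IsHomogeneous n → (hsd α Q).IsHomogeneous (n - α.degree)) ∧
  (∀ (R : Type) [CommRing R] (ι : Type) (α : ι →₀ ℕ) (Q : MvPolynomial ι R) (n : ℕ),
    Q.IsHomogeneous n → n < α.degree → hsd α Q = 0) ∧
  (∀ (R S : Type) [CommRing R] [CommRing S] (φ : R →+* S) (ι : Type) (α : ι →₀ ℕ)
    (Q : MvPolynomial ι R), hsd α (map φ Q) = map φ (hsd α Q))

/-- module EULER: if all Hasse derivatives of order `W ≤ n` of a form of degree `n` vanish at a
point, so do those of smaller order -/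
def EulerStatement : Prop :=
  ∀ (R : Type) [Field R] [CharZero R] (ι : Type) [Fintype ι] (Q : MvPolynomial ι R) (n W : ℕ),
    Q.IsHomogeneous n → W ≤ n → ∀ c : ι → R,
    (∀ α : ι →₀ ℕ, α.degree = W → eval c (hsd α Q) = 0) →
    ∀ α : ι →₀ ℕ, α.degree ≤ W → eval c (hsd α Q) = 0

/-- module SATUR: rows small on the common kernel of `r` functionals -/
def SaturStatement : Prop :=
  ∀ (N : Type) [Field N] [NumberField N] (w : FinitePlace N) (ω : ℝ), 0 ≤ ω → ω ≤ 1 →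
    ∀ (M : Type) [AddCommGroup M] [Module (OW w) M] (V : Submodule (OW w) M) (r : ℕ)
      (ℓ : Fin r → M →ₗ[OW w] N) (κ : Type) (R : κ → M →ₗ[OW w] OW w),
      (∀ x ∈ V, (∀ j, ℓ j x = 0) → ∀ k, w ((R k x : OW w) : N) ≤ ω) →
      ∀ (n : ℕ) (row : Fin n → κ) (x : Fin n → M), (∀ a, x a ∈ V) →
        w (((Matrix.of fun i a => R (row i) (x a)).det : OW w) : N) ≤ ω ^ (n - r)

/-- module CARDW -/
def CardWStatement : Prop :=
  ∀ (ι : Type) [Fintype ι] [Nonempty ι] (W : ℕ),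
    ((Finset.univ : Finset ι).finsuppAntidiag W).card ≤ (W + 1) ^ (Fintype.card ι - 1)

/-- module LOCAL: the determinant of `n` rows all of which are close to centres `cc` -/
def LocalStatement : Prop :=
  ∀ (K : Type) [Field K] [NumberField K] (N : Type) [Field N] [NumberField N] [Algebra K N]
    (p s : ℕ) (ι : Type) [Fintype ι] [DecidableEq ι] [Nonempty ι]
    (v : FinitePlace K) (w : FinitePlace N) (e : ℕ) (Φ : GF (OW v) p s ι),
    Above v w e → v (Φ.ϖ : K) < 1 →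
    ∀ F : ι → MvPolynomial ι K, (∀ i, map (OW v).subtype (Φ.F i) = F i) →
    ∀ (n J b : ℕ) (μ : Fin n → ℕ → ι →₀ ℕ), (∀ a j, (μ a j).degree = b) →
    ∀ (z : Fin n → ι → N) (κ : Type) [Finite κ] (cc : κ → ι → N) (t : ℝ), 0 ≤ t → t ≤ 1 →
    ∀ W r : ℕ, W ≤ dl b (p ^ s) J →
    (∀ i, ∃ k, Close w t (z i) (cc k)) →
    (W + 1) ^ (Fintype.card ι - 1) *
      Module.finrank N (HV cc (dl b (p ^ s) J - W)) ≤ r →
    w (Matrix.of fun i a => aeval (z i) (gQ F J (μ a))).det ≤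
      t ^ ((W + 1) * (n - r)) *
        ∏ i, ∏ j ∈ Finset.range (J + 1), (⨆ l, w ((gAct F N)^[j] (z i) l)) ^ b

/-- module ENERGY3: from the local bounds to heights -/
def Energy3Statement : Prop :=
  ∀ (K : Type) [Field K] [NumberField K] (N : Type) [Field N] [NumberField N] [Algebra K N]
    (ι : Type) [Fintype ι] [DecidableEq ι] [Nonempty ι] (q : ℕ)
    (F : ι → MvPolynomial ι K), (∀ i, (F i).IsHomogeneous q) →
    (∀ z : ι → AlgebraicClosure K, (∀ i, aeval z (F i) = 0) → z = 0) →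
    ∀ (n J b : ℕ) (μ : Fin n → ℕ → ι →₀ ℕ), (∀ a j, (μ a j).degree = b) →
    ∀ (z : Fin n → ι → N), (∀ i, z i ≠ 0) →
    (Matrix.of fun i a => aeval (z i) (gQ F J (μ a))).det ≠ 0 →
    ∀ (S : Finset (FinitePlace N)) (ω : FinitePlace N → ℝ) (g : ℕ),
    (∀ w ∈ S, 0 < ω w) →
    (∀ w ∈ S, w (Matrix.of fun i a => aeval (z i) (gQ F J (μ a))).det ≤
      ω w ^ g * ∏ i, ∏ j ∈ Finset.range (J + 1), (⨆ l, w ((gAct F N)^[j] (z i) l)) ^ b) →
    ∑ w ∈ S, (g : ℝ) * (- Real.log (ω w)) ≤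
      ∑ i, ∑ j ∈ Finset.range (J + 1), (b : ℝ) * Height.logHeight ((gAct F N)^[j] (z i)) +
      Module.finrank ℚ N * Real.log (n.factorial)

/-- module DOUB -/
def DoubStatement : Prop :=
  ∀ (K : Type) [Field K] (B : Type) [CommRing B] [Algebra K B] (ι : Type) [Fintype ι]
    (y : ι → B) (T : ℕ), HW K y T ≤ 3 ^ (Fintype.card ι) * HW K y (T / 2)

/-- module MONO -/
def MonoStatement : Prop :=
  ∀ (K : Type) [Field K] (L : Type) [Field L] [Algebra K L] (ι : Type) [Fintype ι]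
    (y : ι → L), y ≠ 0 → ∀ T T' : ℕ, T ≤ T' → HW K y T ≤ HW K y T'

/-- module INDEP -/
def IndepStatement : Prop :=
  ∀ (K : Type) [Field K] (L : Type) [Field L] [Algebra K L] (ι : Type) [Fintype ι] (m : ℕ)
    (y : Fin m → ι → L) (t : ℕ), (∀ l, y l ≠ 0) →
    (∀ l' l : Fin m, l' < l → ∃ f : MvPolynomial ι K, f.IsHomogeneous t ∧
      aeval (y l') f = 0 ∧ aeval (y l) f ≠ 0) →
    ∀ T : ℕ, m * t ≤ T → ∑ l, HW K (y l) (T - m * t) ≤ HW K (joint y) T

/-- module DED, linear independence of embeddings, first form -/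
def DedStatement : Prop :=
  ∀ (K : Type) [Field K] [CharZero K] (L : Type) [Field L] [Algebra K L] [FiniteDimensional K L]
    (N : Type) [Field N] [Algebra K N], Nat.card (L →ₐ[K] N) = Module.finrank K L →
    (∀ (m n : ℕ) (a : Fin n → Fin m → L), LinearIndependent K a →
      LinearIndependent N (fun i => fun x : Fin m × (L →ₐ[K] N) => x.2 (a i x.1))) ∧
    (∀ (κ : Type) [Fintype κ] (b : κ → N), LinearIndependent K b → ∀ a : κ → L,
      (∀ φ : L →ₐ[K] N, ∑ i, b i * φ (a i) = 0) → ∀ i, a i = 0)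

/-- module ROWS: a nonzero determinant of adapted forms of full size -/
def RowsStatement : Prop :=
  ∀ (K : Type) [Field K] [CharZero K] (L : Type) [Field L] [Algebra K L] [FiniteDimensional K L]
    (N : Type) [Field N] [Algebra K N], Nat.card (L →ₐ[K] N) = Module.finrank K L →
    ∀ (ι : Type) [Fintype ι] (F : ι → MvPolynomial ι K) (b d J : ℕ),
    (∀ i, (F i).IsHomogeneous d) →
    (∀ G : MvPolynomial ι K, G.IsHomogeneous (dl b d J) →
      G ∈ Submodule.span K {Q : MvPolynomial ι K | ∃ μ : ℕ → ι →₀ ℕ,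
        (∀ j, (μ j).degree = b) ∧ Q = gQ F J μ}) →
    ∀ (m : ℕ) (y : Fin m → ι → L) (n : ℕ), n = HW K (joint y) (dl b d J) →
    ∃ (row : Fin n → Fin m × (L →ₐ[K] N)) (μ : Fin n → ℕ → ι →₀ ℕ),
      (∀ a j, (μ a j).degree = b) ∧
      (Matrix.of fun i a =>
        aeval (fun t => (row i).2 (y (row i).1 t)) (gQ F J (μ a))).det ≠ 0

/-- module RANK -/
def RankStatement : Prop :=
  ∀ (K : Type) [Field K] (L : Type) [Field L] [Algebra K L] (N : Type) [Field N] [Algebra K N]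
    (ι : Type) [Fintype ι] (y : ι → L) (κ : Type) [Finite κ] (φ : κ → (L →ₐ[K] N)) (T : ℕ),
    Module.finrank N (HV (fun k t => φ k (y t)) T) ≤ HW K y T

/-- module SEPF: separation of two closed points of a complete intersection, over `K` -/
def SepfStatement : Prop :=
  ∀ (K : Type) [Field K] [CharZero K] (L : Type) [Field L] [Algebra K L] [FiniteDimensional K L]
    (N : Type) [Field N] [Algebra K N] [FiniteDimensional K N],
    Nat.card (L →ₐ[K] N) = Module.finrank K L →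
    ∀ y y' : Fin 3 → L, y ≠ 0 → y' ≠ 0 →
    (∀ φ φ' : L →ₐ[K] N, ¬ ∃ c : N, (fun t => φ (y t)) = c • fun t => φ' (y' t)) →
    ∀ (g h : MvPolynomial (Fin 3) K) (a b : ℕ), g.IsHomogeneous a → h.IsHomogeneous b →
    1 ≤ a → 1 ≤ b → Prime g → ¬ g ∣ h →
    aeval y g = 0 → aeval y' g = 0 → aeval y h = 0 → aeval y' h = 0 →
    ∀ t : ℕ, a + b ≤ t + 2 →
    ∃ f : MvPolynomial (Fin 3) K, f.IsHomogeneous t ∧ aeval y' f = 0 ∧ aeval y f ≠ 0

/-- module SEPL: separation of two levels, or a periodic curve -/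
def SeplStatement : Prop :=
  ∀ (K : Type) [Field K] [CharZero K] (L : Type) [Field L] [Algebra K L] [FiniteDimensional K L]
    (N : Type) [Field N] [Algebra K N] [FiniteDimensional K N],
    Nat.card (L →ₐ[K] N) = Module.finrank K L →
    ∀ (q : ℕ) (F : Fin 3 → MvPolynomial (Fin 3) K), (∀ i, (F i).IsHomogeneous q) → 1 ≤ q →
    ∀ (y' : Fin 3 → L) (j : ℕ), y' ≠ 0 → (gAct F L)^[j] y' ≠ 0 →
    (∀ φ φ' : L →ₐ[K] N, ¬ ∃ c : N,
      (fun t => φ ((gAct F L)^[j] y' t)) = c • fun t => φ' (y' t)) →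
    ∀ (g : MvPolynomial (Fin 3) K) (a : ℕ), g.IsHomogeneous a → 1 ≤ a → Prime g →
    aeval y' g = 0 → ¬ g ∣ (bind₁ F)^[j] g →
    ∀ t : ℕ, a * (1 + q ^ j) ≤ t →
    ∃ f : MvPolynomial (Fin 3) K, f.IsHomogeneous t ∧ aeval y' f = 0 ∧
      aeval ((gAct F L)^[j] y') f ≠ 0

/-- module MINF: an irreducible form of small degree through a point -/
def MinfStatement : Prop :=
  ∀ (K : Type) [Field K] (L : Type) [Field L] [Algebra K L] [FiniteDimensional K L]
    (y : Fin 3 → L), y ≠ 0 →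
    ∃ (a : ℕ) (g : MvPolynomial (Fin 3) K), 1 ≤ a ∧ g.IsHomogeneous a ∧ Prime g ∧
      aeval y g = 0 ∧ a * (a + 1) ≤ 2 * Module.finrank K L

/-- module IMGF: an irreducible form of small degree through the image of a point of a curve -/
def ImgfStatement : Prop :=
  ∀ (K : Type) [Field K] (L : Type) [Field L] [Algebra K L] (q : ℕ)
    (F : Fin 3 → MvPolynomial (Fin 3) K), (∀ i, (F i).IsHomogeneous q) → 1 ≤ q →
    ∀ (y : Fin 3 → L) (r : ℕ), y ≠ 0 → (gAct F L)^[r] y ≠ 0 →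
    ∀ (g : MvPolynomial (Fin 3) K) (δ : ℕ), g.IsHomogeneous δ → g ≠ 0 → aeval y g = 0 →
    ∃ (a : ℕ) (g' : MvPolynomial (Fin 3) K), 1 ≤ a ∧ g'.IsHomogeneous a ∧ Prime g' ∧
      aeval ((gAct F L)^[r] y) g' = 0 ∧ a ≤ 2 * δ * q ^ r

/-- module ENDG: the choice of the parameters -/
def EndgStatement : Prop :=
  ∀ (lam C1 κ : ℝ) (N' c0 : ℕ), 0 < lam → 0 ≤ C1 → 0 ≤ κ → 1 ≤ c0 →
    ∃ C' : ℝ, 0 < C' ∧ ∀ D : ℝ, 1 ≤ D →
      ∃ U : ℕ, 1 ≤ U ∧
        C1 * (1 + κ * ((c0 * U ^ N' : ℕ) : ℝ) + Real.log (((c0 * U ^ N' : ℕ) : ℝ) * D)) ≤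
          lam * ((U : ℝ) * ((c0 * U ^ N' : ℕ) : ℝ)) ∧
        ((c0 * U ^ N' : ℕ) : ℝ) ≤ C' * (1 + Real.log D) ^ ((N' : ℝ) / ((N' : ℝ) + 1))

end Pool.DynLehmer.SB
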