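import Pool.Agent.Lib.MP_2194ec_nt.SB.Iface

set_option autoImplicit false

/-!
# Module DOUB: the Hilbert function of a point at `T` and at `T / 2`
-/

namespace Pool.DynLehmer.SB
open MvPolynomial NumberField Pool.DynLehmer

namespace Doub

open scoped Classical in
/-- the standard members of a finite family -/
noncomputable def std (K : Type) [Field K] {V : Type} [AddCommGroup V] [Module K V] {α β : Type}
    [LinearOrder β] (key : α → β) (v : α → V) (s : Finset α) : Finset α :=
  s.filter fun a => v a ∉ Submodule.span K (v '' {b | b ∈ s ∧ key b < key a})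

/-- the rank of a finite family is the number of its standard members -/
theorem finrank_std {K : Type} [Field K] {V : Type} [AddCommGroup V] [Module K V] {α β : Type}
    [LinearOrder β] (key : α → β) (hkey : Function.Injective key) (v : α → V)
    (s : Finset α) :
    Module.finrank K (Submodule.span K (v '' (s : Set α))) = (std K key v s).card := by
  classical
  induction s using Finset.induction_on_max_value key with
  | empty =>
    rw [Finset.coe_empty, Set.image_empty, Submodule.span_empty, finrank_bot]
    simp [std]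
  | insert a s ha hmax ih =>
    have hlt : ∀ b ∈ s, key b < key a := fun b hb =>
      lt_of_le_of_ne (hmax b hb) fun h => ha (hkey h ▸ hb)
    have h1 : ∀ b ∈ s, {c | c ∈ insert a s ∧ key c < key b} = {c | c ∈ s ∧ key c < key b} := by
      intro b hb
      ext c
      simp only [Finset.mem_insert, Set.mem_ofPred_eq]
      constructor
      · rintro ⟨h | h, h2⟩
        · subst h
          exact absurd (hlt b hb) (not_lt.2 h2.le)
        · exact ⟨h, h2⟩
      · rintro ⟨h, h2⟩
        exact ⟨Or.inr h, h2⟩
    have h2 : {c | c ∈ insert a s ∧ key c < key a} = (s : Set α) := by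
      ext c
      simp only [Finset.mem_insert, Set.mem_ofPred_eq, Finset.mem_coe]
      constructor
      · rintro ⟨h | h, h2⟩
        · subst h
          exact absurd h2 (lt_irrefl _)
        · exact h
      · intro h
        exact ⟨Or.inr h, hlt c h⟩
    have hfin : FiniteDimensional K (Submodule.span K (v '' (s : Set α))) :=
      FiniteDimensional.span_of_finite K (s.finite_toSet.image v)
    have hspan : Submodule.span K (v '' ((insert a s : Finset α) : Set α)) =
        Submodule.span K (v '' (s : Set α)) ⊔ Submodule.span K {v a} := by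
      rw [Finset.coe_insert, Set.image_insert_eq, Submodule.span_insert, sup_comm]
    have hstd : std K key v (insert a s) =
        if v a ∈ Submodule.span K (v '' (s : Set α)) then std K key v s
        else insert a (std K key v s) := by
      unfold std
      rw [Finset.filter_insert, h2]
      have h3 : (s.filter fun b => v b ∉ Submodule.span K
          (v '' {c | c ∈ insert a s ∧ key c < key b})) =
          s.filter fun b => v b ∉ Submodule.span K (v '' {c | c ∈ s ∧ key c < key b}) :=
        Finset.filter_congr fun b hb => by rw [h1 b hb]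
      rw [h3]
      by_cases h4 : v a ∈ Submodule.span K (v '' (s : Set α))
      · rw [if_neg (not_not.2 h4), if_pos h4]
      · rw [if_pos h4, if_neg h4]
    rw [hstd, hspan]
    by_cases h4 : v a ∈ Submodule.span K (v '' (s : Set α))
    · rw [if_pos h4, ← ih, sup_eq_left.2
        ((Submodule.span_singleton_le_iff_mem (v a) _).2 h4)]
    · have h6 : a ∉ std K key v s := fun h => ha (Finset.mem_filter.1 h).1
      rw [if_neg h4, Finset.card_insert_of_notMem h6, ← ih]
      have h5 := Submodule.finrank_sup_add_finrank_inf_eq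
        (Submodule.span K (v '' (s : Set α))) (Submodule.span K {v a})
      have h7 : v a ≠ 0 := fun h => h4 (by rw [h]; exact Submodule.zero_mem _)
      rw [(Submodule.disjoint_span_singleton_of_notMem h4).eq_bot, finrank_bot,
        finrank_span_singleton h7] at h5
      exact h5

section

variable {K : Type} [Field K] {B : Type} [CommRing B] [Algebra K B] {ι : Type} [Fintype ι]

/-- the value of a monomial -/
noncomputable def mval (K : Type) [Field K] {B : Type} [CommRing B] [Algebra K B] {ι : Type}
    (y : ι → B) (m : ι →₀ ℕ) : B := aeval y (monomial m (1 : K))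

omit [Fintype ι] in
theorem mval_add (y : ι → B) (m m' : ι →₀ ℕ) :
    mval K y (m + m') = mval K y m * mval K y m' := by
  unfold mval
  rw [← map_mul, monomial_mul, one_mul]

open scoped Classical in
/-- the monomials of degree `T` -/
noncomputable def mons (ι : Type) [Fintype ι] (T : ℕ) : Finset (ι →₀ ℕ) :=
  (Finset.univ : Finset ι).finsuppAntidiag T

theorem mem_mons (T : ℕ) (m : ι →₀ ℕ) : m ∈ mons ι T ↔ m.degree = T := by
  classical
  unfold mons
  rw [Finset.mem_finsuppAntidiag]
  rw [Finsupp.degree_eq_sum]
  simp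

theorem VW_eq (y : ι → B) (T : ℕ) :
    VW K y T = Submodule.span K (mval K y '' (mons ι T : Set (ι →₀ ℕ))) := by
  unfold VW
  rw [homogeneousSubmodule_eq_finsupp_supported, AddMonoidAlgebra.supported_eq_span_single,
    Submodule.map_span, ← Set.image_comp]
  congr 1
  have h : (mons ι T : Set (ι →₀ ℕ)) = {d | d.degree = T} := by
    ext m
    rw [Finset.mem_coe, mem_mons]
    rfl
  rw [h]
  rfl

/-- halving a monomial -/
theorem exists_half (T : ℕ) (m : ι →₀ ℕ) (hm : m.degree = T) :
    ∃ m1 : ι →₀ ℕ, m1 ≤ m ∧ m1.degree = T / 2 ∧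
      ∀ k, m k ≤ 2 * m1 k + 1 ∧ 2 * m1 k ≤ m k + 1 := by
  classical
  let f : ι →₀ ℕ := Finsupp.equivFunOnFinite.symm fun k => m k / 2
  let g : ι →₀ ℕ := Finsupp.equivFunOnFinite.symm fun k => m k % 2
  have hf : ∀ k, f k = m k / 2 := fun k => rfl
  have hg : ∀ k, g k = m k % 2 := fun k => rfl
  have hdeg : 2 * f.degree + g.degree = T := by
    rw [← hm, Finsupp.degree_eq_sum, Finsupp.degree_eq_sum, Finsupp.degree_eq_sum,
      Finset.mul_sum, ← Finset.sum_add_distrib]
    refine Finset.sum_congr rfl fun k _ => ?_
    rw [hf, hg]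
    omega
  obtain ⟨h, hle, hh⟩ := Finsupp.exists_le_degree_eq g (T / 2 - f.degree) (by omega)
  refine ⟨f + h, ?_, ?_, ?_⟩
  · intro k
    have := hle k
    rw [hg] at this
    rw [Finsupp.add_apply, hf]
    omega
  · rw [map_add, hh]
    omega
  · intro k
    have := hle k
    rw [hg] at this
    rw [Finsupp.add_apply, hf]
    omega

end

end Doub

theorem doub : DoubStatement := by
  intro K _ B _ _ ι _ y T
  classical
  let _ : LinearOrder ι := LinearOrder.lift' (Fintype.equivFin ι) (Fintype.equivFin ι).injective
  let o : MonomialOrder ι := MonomialOrder.lex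
  have hkey : Function.Injective (o.toSyn : (ι →₀ ℕ) → o.syn) := o.toSyn.injective
  unfold HW
  rw [Doub.VW_eq, Doub.VW_eq, Doub.finrank_std (o.toSyn : (ι →₀ ℕ) → o.syn) hkey,
    Doub.finrank_std (o.toSyn : (ι →₀ ℕ) → o.syn) hkey]
  have hcl : ∀ m m1 : ι →₀ ℕ, m1 ≤ m → m1.degree = T / 2 →
      m ∈ Doub.std K (o.toSyn : (ι →₀ ℕ) → o.syn) (Doub.mval K y) (Doub.mons ι T) →
      m1 ∈ Doub.std K (o.toSyn : (ι →₀ ℕ) → o.syn) (Doub.mval K y) (Doub.mons ι (T / 2)) := by
    intro m m1 hle hd hm
    unfold Doub.std at hm ⊢
    rw [Finset.mem_filter, Doub.mem_mons] at hm ⊢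
    refine ⟨hd, fun h => hm.2 ?_⟩
    obtain ⟨c, rfl⟩ := le_iff_exists_add.1 hle
    have h1 := Submodule.mem_map_of_mem (f := LinearMap.mulRight K (Doub.mval K y c)) h
    rw [Submodule.map_span, ← Set.image_comp, LinearMap.mulRight_apply, ← Doub.mval_add] at h1
    refine Submodule.span_mono ?_ h1
    rintro _ ⟨b, ⟨hb1, hb2⟩, rfl⟩
    refine ⟨b + c, ⟨?_, ?_⟩, ?_⟩
    · rw [Doub.mem_mons] at hb1 ⊢
      rw [map_add, hb1, ← hd, ← map_add, hm.1]
    · rw [map_add, map_add]
      exact add_lt_add_left hb2 _
    · simp only [Function.comp_apply, LinearMap.mulRight_apply]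
      exact Doub.mval_add y b c
  choose! φ hφ using fun (m : ι →₀ ℕ) (hm : m.degree = T) => Doub.exists_half T m hm
  refine Finset.card_le_mul_card_image_of_maps_to (f := φ) (fun m hm => ?_) _ (fun b _ => ?_)
  · have h1 : m.degree = T := (Doub.mem_mons T m).1 (Finset.mem_filter.1 hm).1
    exact hcl m (φ m) (hφ m h1).1 (hφ m h1).2.1 hm
  · have h2 : ((Finset.univ : Finset (ι → Fin 3))).card = 3 ^ Fintype.card ι := by
      rw [Finset.card_univ, Fintype.card_fun, Fintype.card_fin]
    rw [← h2]
    refine Finset.card_le_card_of_injOn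
      (fun m => fun k => (⟨(m k + 1 - 2 * b k) % 3, Nat.mod_lt _ (by norm_num)⟩ : Fin 3))
      (fun _ _ => Finset.mem_coe.2 (Finset.mem_univ _)) ?_
    intro m hm m' hm' heq
    rw [Finset.mem_coe, Finset.mem_filter] at hm hm'
    have h3 : m.degree = T := (Doub.mem_mons T m).1 (Finset.mem_filter.1 hm.1).1
    have h4 : m'.degree = T := (Doub.mem_mons T m').1 (Finset.mem_filter.1 hm'.1).1
    ext k
    have h5 := (hφ m h3).2.2 k
    have h6 := (hφ m' h4).2.2 k
    rw [hm.2] at h5
    rw [hm'.2] at h6
    have h7 := congrFun heq k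
    rw [Fin.ext_iff] at h7
    simp only at h7
    omega

end Pool.DynLehmer.SB
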