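import Pool.Agent.Lib.MP_2194ec_nt.SB.Iface

set_option autoImplicit false

/-!
# Theorem B (sharp exponent in the plane): module INDEP (helper44)
-/

namespace Pool.DynLehmer.SB
open MvPolynomial NumberField Pool.DynLehmer
open scoped Classical

namespace IndepAux

instance finite_homog (K : Type) [Field K] (ι : Type) [Finite ι] (t : ℕ) :
    Module.Finite K (homogeneousSubmodule ι K t) :=
  Module.Finite.iff_fg.2 (homogeneousSubmodule_fg ι K t)

instance finite_VW (K : Type) [Field K] {B : Type} [CommRing B] [Algebra K B] {ι : Type}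
    [Finite ι] (y : ι → B) (T : ℕ) : Module.Finite K (VW K y T) := by
  unfold VW
  exact Module.Finite.map _ _

/-- a linear choice of forms with given values -/
theorem exists_lift (K : Type) [Field K] {B : Type} [CommRing B] [Algebra K B] {ι : Type}
    (y : ι → B) (T : ℕ) : ∃ σ : VW K y T →ₗ[K] MvPolynomial ι K,
      ∀ u, (σ u).IsHomogeneous T ∧ aeval y (σ u) = (u : B) := by
  set V := homogeneousSubmodule ι K T with hV
  set φ : V →ₗ[K] VW K y T :=
    ((aeval y : MvPolynomial ι K →ₐ[K] B).toLinearMap.domRestrict V).codRestrict (VW K y T)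
      (fun x => ⟨x.1, x.2, rfl⟩) with hφ
  have hsurj : Function.Surjective φ := by
    rintro ⟨u, P, hP, hPu⟩
    exact ⟨⟨P, hP⟩, Subtype.ext hPu⟩
  obtain ⟨σ, hσ⟩ := φ.exists_rightInverse_of_surjective (LinearMap.range_eq_top.2 hsurj)
  refine ⟨V.subtype.comp σ, fun u => ⟨?_, ?_⟩⟩
  · exact (mem_homogeneousSubmodule T _).1 (σ u).2
  · have h := congrArg (fun f : VW K y T →ₗ[K] VW K y T => ((f u : VW K y T) : B)) hσ
    exact h

theorem aeval_joint (K : Type) [Field K] (L : Type) [Field L] [Algebra K L] (ι : Type) (m : ℕ)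
    (y : Fin m → ι → L) (P : MvPolynomial ι K) (l : Fin m) :
    aeval (joint y) P l = aeval (y l) P := by
  have h : (Pi.evalAlgHom K (fun _ : Fin m => L) l).comp (aeval (joint y)) = aeval (y l) := by
    ext t
    simp [joint]
  exact DFunLike.congr_fun h P

/-- the separating forms of degree `m * t` -/
theorem exists_sep (K : Type) [Field K] (L : Type) [Field L] [Algebra K L] (ι : Type) (m : ℕ)
    (y : Fin m → ι → L) (t : ℕ) (hy : ∀ l, y l ≠ 0)
    (hsep : ∀ l' l : Fin m, l' < l → ∃ f : MvPolynomial ι K, f.IsHomogeneous t ∧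
      aeval (y l') f = 0 ∧ aeval (y l) f ≠ 0) (l : Fin m) :
    ∃ Q : MvPolynomial ι K, Q.IsHomogeneous (m * t) ∧ aeval (y l) Q ≠ 0 ∧
      ∀ l' < l, aeval (y l') Q = 0 := by
  choose! f hf1 hf2 hf3 using hsep
  obtain ⟨i, hi⟩ := Function.ne_iff.1 (hy l)
  have hi : y l i ≠ 0 := hi
  set S : Finset (Fin m) := Finset.univ.filter fun l' => l' < l with hS
  have hcard : S.card ≤ m := by
    calc S.card ≤ (Finset.univ : Finset (Fin m)).card := Finset.card_le_card (Finset.filter_subset _ _)
      _ = m := by rw [Finset.card_univ, Fintype.card_fin]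
  refine ⟨(∏ l' ∈ S, f l' l) * X i ^ ((m - S.card) * t), ?_, ?_, ?_⟩
  · have h1 : (∏ l' ∈ S, f l' l).IsHomogeneous (∑ _l' ∈ S, t) :=
      IsHomogeneous.prod _ _ _ fun l' hl' => hf1 l' l (Finset.mem_filter.1 hl').2
    rw [Finset.sum_const, smul_eq_mul] at h1
    have h2 := h1.mul ((isHomogeneous_X K i).pow ((m - S.card) * t))
    have h3 : S.card * t + 1 * ((m - S.card) * t) = m * t := by
      rw [one_mul, ← add_mul]
      congr 1
      omega
    rwa [h3] at h2
  · rw [map_mul, map_prod, map_pow, aeval_X]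
    refine mul_ne_zero (Finset.prod_ne_zero_iff.2 fun l' hl' => ?_) (pow_ne_zero _ hi)
    exact hf3 l' l (Finset.mem_filter.1 hl').2
  · intro l' hl'
    rw [map_mul, map_prod, Finset.prod_eq_zero (i := l') (Finset.mem_filter.2
      ⟨Finset.mem_univ _, hl'⟩) (hf2 l' l hl'), zero_mul]

theorem indep_aux : IndepStatement := by
  intro K _ L _ _ ι _ m y t hy hsep T hT
  choose Q hQ1 hQ2 hQ3 using exists_sep K L ι m y t hy hsep
  choose σ hσ using fun l => exists_lift K (y l) (T - m * t)
  have hhom : ∀ (l : Fin m) (u : VW K (y l) (T - m * t)), (Q l * σ l u).IsHomogeneous T := by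
    intro l u
    have h := (hQ1 l).mul (hσ l u).1
    have h2 : m * t + (T - m * t) = T := by omega
    rwa [h2] at h
  -- the linear map
  set Θ : (∀ l, VW K (y l) (T - m * t)) →ₗ[K] (Fin m → L) :=
    ∑ l, ((aeval (joint y) : MvPolynomial ι K →ₐ[K] (Fin m → L)).toLinearMap.comp
      ((LinearMap.mulLeft K (Q l)).comp ((σ l).comp (LinearMap.proj l)))) with hΘ
  have hΘa : ∀ u k, Θ u k = ∑ l, aeval (y k) (Q l) * aeval (y k) (σ l (u l)) := by
    intro u k
    rw [hΘ, LinearMap.sum_apply, Finset.sum_apply]
    refine Finset.sum_congr rfl fun l _ => ?_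
    simp only [LinearMap.comp_apply, LinearMap.proj_apply, LinearMap.mulLeft_apply,
      AlgHom.toLinearMap_apply]
    rw [aeval_joint, map_mul]
  have hmem : ∀ u, Θ u ∈ VW K (joint y) T := by
    intro u
    rw [hΘ, LinearMap.sum_apply]
    refine Submodule.sum_mem _ fun l _ => ?_
    exact ⟨Q l * σ l (u l), (mem_homogeneousSubmodule T _).2 (hhom l (u l)), rfl⟩
  have hinj : Function.Injective (Θ.codRestrict (VW K (joint y) T) hmem) := by
    rw [← LinearMap.ker_eq_bot, LinearMap.ker_eq_bot']
    intro u hu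
    have hu0 : ∀ k, Θ u k = 0 := by
      intro k
      have h := congrArg (fun z : VW K (joint y) T => (z : Fin m → L) k) hu
      simpa using h
    by_contra hne
    -- the smallest level with a nonzero component
    have hex : (Finset.univ.filter fun l : Fin m => u l ≠ 0).Nonempty := by
      by_contra hem
      rw [Finset.not_nonempty_iff_eq_empty, Finset.filter_eq_empty_iff] at hem
      apply hne
      funext l
      by_contra hl
      exact hem (Finset.mem_univ l) hl
    set k := (Finset.univ.filter fun l : Fin m => u l ≠ 0).min' hex with hk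
    have hk1 : u k ≠ 0 := (Finset.mem_filter.1 (Finset.min'_mem _ hex)).2
    have hk2 : ∀ l, l < k → u l = 0 := by
      intro l hl
      by_contra hl'
      exact absurd (Finset.min'_le _ l (Finset.mem_filter.2 ⟨Finset.mem_univ _, hl'⟩))
        (not_le.2 hl)
    have h1 := hu0 k
    rw [hΘa, Finset.sum_eq_single k] at h1
    · rw [(hσ k (u k)).2] at h1
      rcases mul_eq_zero.1 h1 with h2 | h2
      · exact hQ2 k h2
      · exact hk1 (Subtype.ext h2)
    · intro l _ hl
      rcases lt_or_gt_of_ne hl with hl | hl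
      · rw [hk2 l hl, map_zero, map_zero, mul_zero]
      · rw [hQ3 l k hl, zero_mul]
    · intro h; exact absurd (Finset.mem_univ k) h
  have h := LinearMap.finrank_le_finrank_of_injective hinj
  rw [Module.finrank_pi_fintype] at h
  exact h

end IndepAux

theorem indep : MonoStatement → IndepStatement := fun _ => IndepAux.indep_aux

end Pool.DynLehmer.SB
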