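import Pool.Agent.Lib.MP_2194ec_nt.SB.Iface

set_option autoImplicit false

/-!
# Module MONO
-/

namespace Pool.DynLehmer.SB
open MvPolynomial Pool.DynLehmer
open scoped Classical

/-- forms of a fixed degree are a finite-dimensional space -/
theorem finite_hom (K : Type) [Field K] (ι : Type) [Fintype ι] (T : ℕ) :
    Module.Finite K (homogeneousSubmodule ι K T) := by
  have h1 : homogeneousSubmodule ι K T = restrictSupport K {d | d.degree = T} :=
    homogeneousSubmodule_eq_finsupp_supported ι K T
  rw [h1]
  have h2 : {d : ι →₀ ℕ | d.degree = T} =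
      ((Finset.univ : Finset ι).finsuppAntidiag T : Set (ι →₀ ℕ)) := by
    ext d
    simp [Finsupp.degree_eq_sum]
  haveI : Finite {d : ι →₀ ℕ | d.degree = T} := by
    rw [h2]
    exact Finset.finite_toSet _
  exact Module.Finite.of_basis (basisRestrictSupport K {d : ι →₀ ℕ | d.degree = T})

theorem finite_VW (K : Type) [Field K] {B : Type} [CommRing B] [Algebra K B] {ι : Type}
    [Fintype ι] (y : ι → B) (T : ℕ) : Module.Finite K (VW K y T) := by
  haveI := finite_hom K ι T
  unfold VW
  infer_instance

theorem mono : MonoStatement := by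
  intro K _ L _ _ ι _ y hy T T' hT
  obtain ⟨i, hi⟩ := Function.ne_iff.1 hy
  haveI := finite_VW K y T'
  have hc : y i ^ (T' - T) ≠ 0 := pow_ne_zero _ hi
  have hinj : Function.Injective (LinearMap.mulLeft K (y i ^ (T' - T))) :=
    fun a b h => mul_left_cancel₀ hc h
  have h1 : Module.finrank K ((VW K y T).map (LinearMap.mulLeft K (y i ^ (T' - T)))) =
      Module.finrank K (VW K y T) :=
    (LinearEquiv.finrank_eq (Submodule.equivMapOfInjective _ hinj _)).symm
  have h2 : (VW K y T).map (LinearMap.mulLeft K (y i ^ (T' - T))) ≤ VW K y T' := by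
    rintro _ ⟨_, ⟨f, hf, rfl⟩, rfl⟩
    refine ⟨X i ^ (T' - T) * f, ?_, ?_⟩
    · have h3 : (X i ^ (T' - T) * f : MvPolynomial ι K).IsHomogeneous (T' - T + T) := by
        have h4 := (isHomogeneous_X K i).pow (T' - T)
        rw [one_mul] at h4
        exact h4.mul ((mem_homogeneousSubmodule _ _).1 hf)
      rw [Nat.sub_add_cancel hT] at h3
      exact (mem_homogeneousSubmodule _ _).2 h3
    · simp
  unfold HW
  rw [← h1]
  exact Submodule.finrank_mono h2

end Pool.DynLehmer.SB
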