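import Mathlib
import Pool.Agent.Lib.MP_2194ec_nt.RelLevels
import Pool.Agent.Lib.MP_2194ec_nt.SB.Iface

set_option autoImplicit false

/-!
# Theorem B: lemmas for the core
-/

namespace Pool.DynLehmer.SB
open MvPolynomial NumberField Pool.DynLehmer Filter Topology
open scoped Classical

/-- the dimension of the space of forms -/
theorem finrank_forms_le (K : Type) [Field K] (ι : Type) [Fintype ι] (T : ℕ) :
    Module.finrank K (homogeneousSubmodule ι K T) ≤ (T + 1) ^ (Fintype.card ι) := by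
  have h2 : homogeneousSubmodule ι K T = restrictSupport K {d | d.degree = T} :=
    homogeneousSubmodule_eq_finsupp_supported ι K T
  rw [h2, Module.finrank_eq_nat_card_basis
    (basisRestrictSupport K {d : ι →₀ ℕ | d.degree = T})]
  have h3 : Nat.card (ι → Fin (T + 1)) = (T + 1) ^ (Fintype.card ι) := by
    rw [Nat.card_eq_fintype_card, Fintype.card_fun, Fintype.card_fin]
  rw [← h3]
  have hle : ∀ (d : ι →₀ ℕ), d.degree = T → ∀ i, d i < T + 1 := by
    intro d hd i
    rw [Finsupp.degree_eq_sum] at hd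
    have := Finset.single_le_sum (f := fun i => d i) (fun _ _ => Nat.zero_le _)
      (Finset.mem_univ i)
    omega
  refine Nat.card_le_card_of_injective
    (fun d : {d : ι →₀ ℕ | d.degree = T} => fun i => (⟨d.1 i, hle d.1 d.2 i⟩ : Fin (T + 1))) ?_
  intro d d' hdd
  apply Subtype.ext
  ext i
  have := congrFun hdd i
  simpa using this

theorem HW_le_pow (K : Type) [Field K] {B : Type} [CommRing B] [Algebra K B] {ι : Type} [Fintype ι]
    (y : ι → B) (T : ℕ) : HW K y T ≤ (T + 1) ^ (Fintype.card ι) := by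
  have hfdV : FiniteDimensional K (homogeneousSubmodule ι K T) :=
    Module.Finite.iff_fg.2 (homogeneousSubmodule_fg ι K T)
  exact (Submodule.finrank_map_le _ _).trans (finrank_forms_le K ι T)

theorem one_le_HW_zero (K : Type) [Field K] {B : Type} [CommRing B] [Nontrivial B] [Algebra K B]
    {ι : Type} [Fintype ι] (y : ι → B) : 1 ≤ HW K y 0 := by
  have hfdV : FiniteDimensional K (homogeneousSubmodule ι K 0) :=
    Module.Finite.iff_fg.2 (homogeneousSubmodule_fg ι K 0)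
  have hfd : FiniteDimensional K (VW K y 0) := by
    rw [VW]; infer_instance
  have h1 : VW K y 0 ≠ ⊥ := by
    intro h2
    have h3 : (1 : B) ∈ VW K y 0 := by
      refine ⟨1, ?_, by simp⟩
      rw [SetLike.mem_coe, mem_homogeneousSubmodule]
      exact isHomogeneous_one ι K
    rw [h2, Submodule.mem_bot] at h3
    exact one_ne_zero h3
  rw [HW, Nat.one_le_iff_ne_zero]
  intro h2
  exact h1 (Submodule.finrank_eq_zero.1 h2)

/-- the counting of the Hilbert functions -/
theorem count_core (hDo : DoubStatement) (hMo : MonoStatement) (hIn : IndepStatement)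
    (K : Type) [Field K] (L : Type) [Field L] [Algebra K L] (ι : Type) [Fintype ι]
    {Lv t T R : ℕ} (hLv : 1 ≤ Lv) (hLvR : Lv = 2 * 3 ^ (Fintype.card ι) * R)
    (hT : 2 * Lv * t ≤ T) (yy : Fin Lv → ι → L) (hyne : ∀ l, yy l ≠ 0)
    (hsep : ∀ l' l : Fin Lv, l' < l → ∃ f : MvPolynomial ι K, f.IsHomogeneous t ∧
      aeval (yy l') f = 0 ∧ aeval (yy l) f ≠ 0) :
    1 ≤ HW K (joint yy) T ∧ ∃ l0, 2 * (R * HW K (yy l0) T) ≤ HW K (joint yy) T := by
  have hne : (Finset.univ : Finset (Fin Lv)).Nonempty := ⟨⟨0, hLv⟩, Finset.mem_univ _⟩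
  obtain ⟨l0, -, hl0⟩ := Finset.exists_min_image Finset.univ (fun l => HW K (yy l) T) hne
  set h0 := HW K (yy l0) T with hh0
  set n := HW K (joint yy) T with hn
  have hsum1 : ∑ l, HW K (yy l) (T - Lv * t) ≤ n := by
    refine hIn K L ι Lv yy t hyne hsep T ?_
    calc Lv * t ≤ 2 * Lv * t := by nlinarith
        _ ≤ T := hT
  have hn1 : 1 ≤ n := by
    refine le_trans ?_ hsum1
    have h1 : HW K (yy ⟨0, hLv⟩) (T - Lv * t) ≤ ∑ l, HW K (yy l) (T - Lv * t) :=
      Finset.single_le_sum (f := fun l => HW K (yy l) (T - Lv * t)) (fun _ _ => Nat.zero_le _)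
        (Finset.mem_univ _)
    exact ((one_le_HW_zero K _).trans (hMo K L ι (yy _) (hyne _) _ _ (Nat.zero_le _))).trans h1
  refine ⟨hn1, l0, ?_⟩
  have hsum2 : Lv * h0 ≤ 3 ^ (Fintype.card ι) * n := by
    have h1 : ∀ l : Fin Lv, h0 ≤ 3 ^ (Fintype.card ι) * HW K (yy l) (T - Lv * t) := by
      intro l
      refine (hl0 l (Finset.mem_univ _)).trans ((hDo K L ι (yy l) T).trans ?_)
      apply Nat.mul_le_mul_left
      refine hMo K L ι (yy l) (hyne l) _ _ ?_
      have : 2 * (Lv * t) ≤ T := by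
        calc 2 * (Lv * t) = 2 * Lv * t := by ring
          _ ≤ T := hT
      omega
    calc Lv * h0 = ∑ _l : Fin Lv, h0 := by simp
      _ ≤ ∑ l : Fin Lv, 3 ^ (Fintype.card ι) * HW K (yy l) (T - Lv * t) :=
          Finset.sum_le_sum fun l _ => h1 l
      _ = 3 ^ (Fintype.card ι) * ∑ l : Fin Lv, HW K (yy l) (T - Lv * t) := by
          rw [Finset.mul_sum]
      _ ≤ _ := Nat.mul_le_mul_left _ hsum1
  have h1 : 3 ^ (Fintype.card ι) * (2 * (R * h0)) ≤ 3 ^ (Fintype.card ι) * n := by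
    calc 3 ^ (Fintype.card ι) * (2 * (R * h0)) = Lv * h0 := by rw [hLvR]; ring
      _ ≤ _ := hsum2
  exact Nat.le_of_mul_le_mul_left h1 (pow_pos (by norm_num) _)

/-- the numerical part -/
theorem num_core {lam b C q νr D Lv t n M' T κ U Hm : ℝ} (hb : 1 ≤ b) (hC : 0 ≤ C) (hq : 2 ≤ q)
    (hν : 0 ≤ νr) (hD : 1 ≤ D) (hLv : 1 ≤ Lv) (ht : 1 ≤ t) (hM1 : 1 ≤ M') (hn1 : 1 ≤ n)
    (hU : 1 ≤ U) (hHm : 0 ≤ Hm) (hlam : 0 ≤ lam) (hκ : 0 ≤ κ)
    (hM : M' = 2 * Lv * t)
    (htle : Real.log t ≤ Real.log (4 * q) + Real.log D + κ)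
    (hTle : T ≤ 2 * b * q * M') (hT1 : 1 ≤ T)
    (hnle : Real.log n ≤ νr * Real.log (T + 1))
    (hmain : lam / 2 * (U * Lv) ≤ T * Hm + b * C * (2 + 2 * Real.log M') + Real.log n)
    (hEn : (2 * b * C + νr + νr * Real.log (4 * b * q) + 2 * b * C) *
      (1 + Real.log (8 * q)) * (1 + κ + Real.log (Lv * D)) ≤ lam / 4 * (U * Lv)) :
    lam ≤ 16 * b * q * t * Hm := by
  have hlog4bq : 0 ≤ Real.log (4 * b * q) := Real.log_nonneg (by nlinarith)
  have hlog8q : 0 ≤ Real.log (8 * q) := Real.log_nonneg (by linarith)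
  have hlogLD : 0 ≤ Real.log (Lv * D) := Real.log_nonneg (one_le_mul_of_one_le_of_one_le hLv hD)
  have hlogM : Real.log M' ≤ Real.log (8 * q) + Real.log (Lv * D) + κ := by
    have e1 : Real.log M' = Real.log 2 + Real.log Lv + Real.log t := by
      rw [hM, Real.log_mul (by positivity) (by positivity), Real.log_mul (by norm_num)
        (by positivity)]
    have e2 : Real.log (Lv * D) = Real.log Lv + Real.log D :=
      Real.log_mul (by positivity) (by positivity)
    have h1 : Real.log (8 * q) = Real.log 2 + Real.log (4 * q) := by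
      rw [← Real.log_mul (by norm_num) (by positivity)]; congr 1; ring
    linarith
  have hlogM0 : 0 ≤ Real.log M' := Real.log_nonneg hM1
  have hlogn2 : Real.log n ≤ νr * (Real.log (4 * b * q) + Real.log M') := by
    have h3 : T + 1 ≤ (4 * b * q) * M' := by linarith
    have h4 : Real.log (T + 1) ≤ Real.log ((4 * b * q) * M') :=
      Real.log_le_log (by linarith) h3
    rw [Real.log_mul (by positivity) (by positivity)] at h4
    exact hnle.trans (mul_le_mul_of_nonneg_left h4 hν)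
  have hsmall : b * C * (2 + 2 * Real.log M') + Real.log n ≤ lam / 4 * (U * Lv) := by
    refine le_trans ?_ hEn
    have h2 : 0 ≤ b * C := by positivity
    set a8 := Real.log (8 * q) with ha8
    set LD := Real.log (Lv * D) with hLD
    set a4 := Real.log (4 * b * q) with ha4
    set W0 : ℝ := 1 + κ + LD with hW0
    have hW01 : 1 ≤ W0 := by linarith
    have h5 : Real.log M' ≤ (1 + a8) * W0 := by
      have h6 : a8 * 1 ≤ a8 * W0 := mul_le_mul_of_nonneg_left hW01 hlog8q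
      nlinarith
    have h6 : (1 : ℝ) ≤ (1 + a8) * W0 := by nlinarith
    have h7 : b * C * (2 + 2 * Real.log M') ≤ b * C * (4 * ((1 + a8) * W0)) := by
      apply mul_le_mul_of_nonneg_left _ h2
      linarith
    have h8 : νr * (a4 + Real.log M') ≤ νr * (a4 * ((1 + a8) * W0) + (1 + a8) * W0) := by
      apply mul_le_mul_of_nonneg_left _ hν
      have : a4 * 1 ≤ a4 * ((1 + a8) * W0) := mul_le_mul_of_nonneg_left h6 hlog4bq
      linarith
    calc b * C * (2 + 2 * Real.log M') + Real.log n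
        ≤ b * C * (4 * ((1 + a8) * W0)) + νr * (a4 * ((1 + a8) * W0) + (1 + a8) * W0) :=
          add_le_add h7 (hlogn2.trans h8)
      _ = _ := by ring
  have h1 : lam / 4 * (U * Lv) ≤ T * Hm := by linarith
  have h2 : T * Hm ≤ (2 * b * q * (2 * Lv * t)) * Hm := by
    apply mul_le_mul_of_nonneg_right _ hHm
    rw [← hM]; exact hTle
  have h3 : Lv * (lam / 4) ≤ Lv * (4 * b * q * t * Hm) := by
    calc Lv * (lam / 4) = lam / 4 * (1 * Lv) := by ring
      _ ≤ lam / 4 * (U * Lv) := by gcongr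
      _ ≤ (2 * b * q * (2 * Lv * t)) * Hm := h1.trans h2
      _ = _ := by ring
  have h4 := le_of_mul_le_mul_left h3 (by linarith)
  linarith

/-- upper bound for the heights of the rows -/
theorem heights_core {K N ι : Type} [Field K] [Field N] [NumberField N] [Algebra K N] [Fintype ι]
    (F : ι → MvPolynomial ι K) (hh : (ι → N) → ℝ) {q C Hm b lM : ℝ} (hq : 0 ≤ q) (hb : 0 ≤ b)
    (hC : 0 ≤ C)
    (hdiff : ∀ z, |hh z - Height.logHeight z / (Module.finrank ℚ N : ℝ)| ≤ C)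
    (hmuln : ∀ (n : ℕ) z, hh ((gAct F N)^[n] z) = q ^ n * hh z) {n J : ℕ} {T : ℝ}
    (hTr : T = ∑ j ∈ Finset.range (J + 1), q ^ j * b) (hJ : (J : ℝ) + 1 ≤ 2 + 2 * lM)
    (z : Fin n → ι → N) (hHm : ∀ a, hh (z a) ≤ Hm) :
    ∑ i, ∑ j ∈ Finset.range (J + 1), b * Height.logHeight ((gAct F N)^[j] (z i)) +
      Module.finrank ℚ N * Real.log (n.factorial) ≤
      n * (Module.finrank ℚ N * (T * Hm + b * C * (2 + 2 * lM) + Real.log n)) := by
  have hNpos : (0 : ℝ) < Module.finrank ℚ N := by exact_mod_cast Module.finrank_pos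
  have h1 : ∀ i, ∑ j ∈ Finset.range (J + 1), b *
      Height.logHeight ((gAct F N)^[j] (z i)) ≤
      Module.finrank ℚ N * (T * Hm + b * C * (2 + 2 * lM)) := by
    intro i
    have h2 : ∀ j ∈ Finset.range (J + 1), b * Height.logHeight ((gAct F N)^[j] (z i)) ≤
        Module.finrank ℚ N * (q ^ j * b * Hm + b * C) := by
      intro j _
      have h3 : Height.logHeight ((gAct F N)^[j] (z i)) =
          Module.finrank ℚ N * (Height.logHeight ((gAct F N)^[j] (z i)) /
            (Module.finrank ℚ N : ℝ)) := by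
        field_simp
      have h4 : Height.logHeight ((gAct F N)^[j] (z i)) / (Module.finrank ℚ N : ℝ) ≤
          q ^ j * Hm + C := by
        have h5 := abs_le.1 (hdiff ((gAct F N)^[j] (z i)))
        rw [hmuln] at h5
        have h6 : q ^ j * hh (z i) ≤ q ^ j * Hm :=
          mul_le_mul_of_nonneg_left (hHm i) (by positivity)
        linarith [h5.1]
      rw [h3]
      calc b * (Module.finrank ℚ N * (Height.logHeight ((gAct F N)^[j] (z i)) /
            (Module.finrank ℚ N : ℝ)))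
          = Module.finrank ℚ N * (b * (Height.logHeight ((gAct F N)^[j] (z i)) /
            (Module.finrank ℚ N : ℝ))) := by ring
        _ ≤ Module.finrank ℚ N * (b * (q ^ j * Hm + C)) := by gcongr
        _ = _ := by ring
    refine (Finset.sum_le_sum h2).trans ?_
    rw [← Finset.mul_sum, Finset.sum_add_distrib, ← Finset.sum_mul, ← hTr,
      Finset.sum_const, Finset.card_range, nsmul_eq_mul]
    apply mul_le_mul_of_nonneg_left _ hNpos.le
    push_cast
    have h3 : ((J : ℝ) + 1) * (b * C) ≤ (2 + 2 * lM) * (b * C) :=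
      mul_le_mul_of_nonneg_right hJ (by positivity)
    linarith
  have h2 : Real.log (n.factorial) ≤ n * Real.log n := EData.log_factorial_le n
  calc ∑ i, ∑ j ∈ Finset.range (J + 1), b *
        Height.logHeight ((gAct F N)^[j] (z i)) + Module.finrank ℚ N * Real.log (n.factorial)
      ≤ ∑ _i : Fin n, (Module.finrank ℚ N *
          (T * Hm + b * C * (2 + 2 * lM)) : ℝ) +
          Module.finrank ℚ N * (n * Real.log n) := by
        gcongr with i _
        exact h1 i
    _ = _ := by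
        rw [Finset.sum_const, Finset.card_univ, Fintype.card_fin, nsmul_eq_mul]
        ring

section close

variable {K : Type} [Field K] [NumberField K] {p s : ℕ} {ι : Type} [Fintype ι] [DecidableEq ι]

/-- all levels are close to one level -/
theorem close_core [Nonempty ι] (hp : p.Prime) (hs : 1 ≤ s) {v : FinitePlace K}
    (Φ : GF (OW v) p s ι) (hϖ : v (Φ.ϖ : K) < 1) (hϖ0 : (Φ.ϖ : K) ≠ 0)
    (F : ι → MvPolynomial ι K) (hF : ∀ i, (F i).IsHomogeneous (p ^ s))
    (hz : ∀ z : ι → AlgebraicClosure K, (∀ i, aeval z (F i) = 0) → z = 0)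
    (hΦF : ∀ i, map (OW v).subtype (Φ.F i) = F i) {m0 f' : ℕ}
    (hm0 : ∀ k, m0 ∣ k → GGoodExp Φ k)
    {L N : Type} [Field L] [NumberField L] [Algebra K L] [Field N] [NumberField N] [Algebra K N]
    {w : FinitePlace N} {e : ℕ} (hw : Above v w e) (τ : N ≃ₐ[K] N) {E : ℕ} (hE1 : 1 ≤ E)
    (hfrob : ∀ a : N, w a ≤ 1 → w (τ a - a ^ (p ^ f')) < 1)
    (hram : ∀ φ : L →ₐ[K] N, ∀ a : L, w (φ a) < 1 → (w (φ a)) ^ E ≤ w (toN v N Φ.ϖ))
    {j0 : ℕ} (hj01 : E ≤ (p ^ s) ^ j0) (x : ι → L) (hx : x ≠ 0) (i0 l l0 : ℕ)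
    (φ : L →ₐ[K] N) :
    ∃ φ' : L →ₐ[K] N, Close w (w (toN v N Φ.ϖ) ^ (i0 + 1))
      (fun t => φ ((gAct F L)^[j0 + i0 + m0 * f' * l] x t))
      (fun t => φ' ((gAct F L)^[j0 + i0 + m0 * f' * l0] x t)) := by
  have hfr : ∀ y : N, w y ≤ 1 → w ((τ ^ (s * m0)) y - y ^ ((p ^ s) ^ (m0 * f'))) < 1 := by
    intro y hy
    have h1 := frob_pow τ w (p ^ f') hfrob (s * m0) y hy
    have h2 : (p ^ f') ^ (s * m0) = (p ^ s) ^ (m0 * f') := by
      rw [← pow_mul, ← pow_mul]; congr 1; ring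
    rw [h2] at h1
    exact h1
  have hlc : ∀ (l : ℕ) (φ : L →ₐ[K] N), Close w (w (toN v N Φ.ϖ) ^ (i0 + 1))
      (fun t => φ ((gAct F L)^[j0 + i0 + m0 * f' * l] x t))
      ((gAct F N)^[j0 + i0] (fun t => ((τ ^ (s * m0 * l) : N ≃ₐ[K] N)) (φ (x t)))) := by
    intro l φ
    have h1 := level_close Φ hw hϖ hϖ0 hp hs F hF hz hΦF (k := m0 * f')
      (fun l => hm0 (m0 * f' * l) ⟨f' * l, by ring⟩) (τ ^ (s * m0)) hfr hE1 hj01 x hx
      l i0 φ (((τ ^ (s * m0 * l) : N ≃ₐ[K] N) : N →ₐ[K] N).comp φ)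
      (fun a => hram φ a)
      (fun a => hram (((τ ^ (s * m0 * l) : N ≃ₐ[K] N) : N →ₐ[K] N).comp φ) a) (fun y => by
        rw [← pow_mul]
        rfl)
    rw [gAct_iter_map F φ _ x] at h1
    exact h1
  refine ⟨((((τ ^ (s * m0 * l0))⁻¹ * τ ^ (s * m0 * l) : N ≃ₐ[K] N)) : N →ₐ[K] N).comp φ, ?_⟩
  have h3 := hlc l φ
  have h4 := hlc l0 (((((τ ^ (s * m0 * l0))⁻¹ * τ ^ (s * m0 * l) : N ≃ₐ[K] N)) :
    N →ₐ[K] N).comp φ)
  have h5 : (fun t => ((τ ^ (s * m0 * l0) : N ≃ₐ[K] N))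
      ((((((τ ^ (s * m0 * l0))⁻¹ * τ ^ (s * m0 * l) : N ≃ₐ[K] N)) :
        N →ₐ[K] N).comp φ) (x t))) = fun t => ((τ ^ (s * m0 * l) : N ≃ₐ[K] N)) (φ (x t)) := by
    funext t
    change (τ ^ (s * m0 * l0) * ((τ ^ (s * m0 * l0))⁻¹ * τ ^ (s * m0 * l)) : N ≃ₐ[K] N)
      (φ (x t)) = _
    rw [mul_inv_cancel_left]
  rw [h5] at h4
  exact h3.trans' h4.symm'

end close

end Pool.DynLehmer.SB
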