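import Pool.Agent.Lib.MP_2194ec_nt.Energy
import Pool.Agent.Lib.MP_2194ec_nt.SB.Iface

set_option autoImplicit false

/-!
# Theorem B, module ENERGY3: from the local bounds to heights
-/

namespace Pool.DynLehmer.SB
open MvPolynomial NumberField Pool.DynLehmer
open scoped Classical

/-- module ENERGY3 -/
theorem energy3 : Energy3Statement := by
  intro K _ _ N _ _ _ ι _ _ _ q F hF hz0 n J b μ hμ z hz hdet S ω g hω0 hloc
  set D := (Matrix.of fun i a => aeval (z i) (gQ F J (μ a))).det with hD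
  have hne : ∀ (j : ℕ) i, (gAct F N)^[j] (z i) ≠ 0 := fun j i =>
    gAct_iter_ne F hF hz0 j (z i) (hz i)
  have hL := liouville (κ := Fin n × Fin (J + 1)) hdet (fun k => (gAct F N)^[k.2] (z k.1))
    (fun k => hne k.2 k.1) (fun _ => b) (n.factorial : ℝ)
    (by exact_mod_cast Nat.one_le_iff_ne_zero.2 (Nat.factorial_ne_zero _))
    (fun w => by
      rw [Fintype.prod_prod_type]
      refine det_le_abv w.1 _ _ fun i a => ?_
      rw [Fin.prod_univ_eq_prod_range (fun j => (⨆ l, w ((gAct F N)^[j] (z i) l)) ^ b)]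
      exact gQ_entry_le F w J (μ a) (hμ a) (z i))
    (fun w => by
      rw [Fintype.prod_prod_type]
      refine det_le_finite w _ _ (fun i => ?_) fun i a => ?_
      · refine Finset.prod_nonneg fun j _ => pow_nonneg ?_ _
        exact Real.iSup_nonneg fun l => apply_nonneg w _
      · rw [Fin.prod_univ_eq_prod_range (fun j => (⨆ l, w ((gAct F N)^[j] (z i) l)) ^ b)]
        exact gQ_entry_le F w J (μ a) (hμ a) (z i)) S
  have hR : ∑ k : Fin n × Fin (J + 1), (b : ℝ) * Height.logHeight ((gAct F N)^[k.2] (z k.1)) =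
      ∑ i, ∑ j ∈ Finset.range (J + 1), (b : ℝ) * Height.logHeight ((gAct F N)^[j] (z i)) := by
    rw [Fintype.sum_prod_type]
    refine Finset.sum_congr rfl fun i _ => ?_
    rw [Fin.sum_univ_eq_sum_range (fun j => (b : ℝ) * Height.logHeight ((gAct F N)^[j] (z i)))]
  rw [← hR]
  refine le_trans (Finset.sum_le_sum fun w hw => ?_) hL
  have hg := hloc w hw
  have hpos : ∀ i, ∀ j ∈ Finset.range (J + 1), 0 < (⨆ l, w ((gAct F N)^[j] (z i) l)) ^ b :=
    fun i j _ => pow_pos (iSup_pos_of_ne w (hne j i)) _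
  have hprodpos : 0 < ∏ i, ∏ j ∈ Finset.range (J + 1), (⨆ l, w ((gAct F N)^[j] (z i) l)) ^ b :=
    Finset.prod_pos fun i _ => Finset.prod_pos (hpos i)
  have h1 := Real.log_le_log (FinitePlace.pos_iff.2 hdet) hg
  rw [Real.log_mul (pow_pos (hω0 w hw) _).ne' hprodpos.ne', Real.log_pow,
    Real.log_prod (fun i _ => (Finset.prod_pos (hpos i)).ne')] at h1
  have h2 : ∑ i, Real.log (∏ j ∈ Finset.range (J + 1), (⨆ l, w ((gAct F N)^[j] (z i) l)) ^ b) =
      ∑ k : Fin n × Fin (J + 1), (b : ℝ) * Real.log (⨆ l, w ((gAct F N)^[k.2] (z k.1) l)) := by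
    rw [Fintype.sum_prod_type]
    refine Finset.sum_congr rfl fun i _ => ?_
    rw [Real.log_prod (fun j hj => (hpos i j hj).ne'),
      Fin.sum_univ_eq_sum_range (fun j => (b : ℝ) * Real.log (⨆ l, w ((gAct F N)^[j] (z i) l)))]
    exact Finset.sum_congr rfl fun j _ => Real.log_pow _ _
  rw [h2] at h1
  linarith

end Pool.DynLehmer.SB
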