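import Pool.Agent.Lib.MP_2194ec_nt.SB.Iface

set_option autoImplicit false

/-!
# Theorem B, module ROWS (helper65): a nonzero determinant of adapted forms of full size
-/

namespace Pool.DynLehmer.SB
open MvPolynomial NumberField Pool.DynLehmer
open scoped Classical

/-- the columns of a matrix with independent rows span -/
theorem rows_span_columns {N : Type} [Field N] {κ : Type} {n : ℕ} (v : Fin n → κ → N)
    (hv : LinearIndependent N v) :
    Submodule.span N (Set.range fun x : κ => fun a => v a x) = ⊤ := by
  by_contra hne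
  obtain ⟨f, hf, hker⟩ := Submodule.exists_le_ker_of_lt_top _ (lt_top_iff_ne_top.2 hne)
  apply hf
  have hexp : ∀ c : Fin n → N, f c = ∑ a, c a * f (Pi.single a 1) := by
    intro c
    conv_lhs => rw [pi_eq_sum_univ' c]
    rw [map_sum]
    refine Finset.sum_congr rfl fun a _ => ?_
    rw [map_smul, smul_eq_mul]
  have h0 : ∑ a, f (Pi.single a 1) • v a = 0 := by
    funext x
    have h1 : f (fun a => v a x) = 0 :=
      hker (Submodule.subset_span ⟨x, rfl⟩)
    rw [hexp] at h1
    rw [Finset.sum_apply]
    simp only [Pi.smul_apply, smul_eq_mul, Pi.zero_apply]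
    rw [← h1]
    exact Finset.sum_congr rfl fun a _ => mul_comm _ _
  have h2 := Fintype.linearIndependent_iff.1 hv _ h0
  refine LinearMap.ext fun c => ?_
  rw [hexp c]
  simp [h2]

/-- rows with a nonzero determinant -/
theorem rows_exists {N : Type} [Field N] {κ : Type} {n : ℕ} (v : Fin n → κ → N)
    (hv : LinearIndependent N v) :
    ∃ row : Fin n → κ, (Matrix.of fun i a => v a (row i)).det ≠ 0 := by
  obtain ⟨f, hf, hdet⟩ := exists_det_ne_zero _ (rows_span_columns v hv)
  choose row hrow using hf
  refine ⟨row, ?_⟩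
  have h1 : (Matrix.of fun i a => v a (row i)) = (Matrix.of fun i a => f a i).transpose := by
    ext i a
    simp only [Matrix.of_apply, Matrix.transpose_apply]
    rw [← hrow i]
  rw [h1, Matrix.det_transpose]
  exact hdet

theorem rows (ded : DedStatement) : RowsStatement := by
  intro K _ _ L _ _ _ N _ _ hcard ι _ F b d J hF hspan m y n hn
  -- the values of the adapted forms span
  set s : Set (Fin m → L) := {v | ∃ μ : ℕ → ι →₀ ℕ, (∀ j, (μ j).degree = b) ∧
    v = aeval (joint y) (gQ F J μ)} with hs
  have hVW : VW K (joint y) (dl b d J) = Submodule.span K s := by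
    apply le_antisymm
    · rintro v ⟨G, hG, rfl⟩
      have hG' : G.IsHomogeneous (dl b d J) := hG
      have h2 := hspan G hG'
      clear hG hG'
      induction h2 using Submodule.span_induction with
      | mem Q hQ =>
        obtain ⟨μ, hμ, rfl⟩ := hQ
        exact Submodule.subset_span ⟨μ, hμ, rfl⟩
      | zero => rw [map_zero]; exact Submodule.zero_mem _
      | add P Q _ _ hP hQ => rw [map_add]; exact Submodule.add_mem _ hP hQ
      | smul r P _ hP => rw [map_smul]; exact Submodule.smul_mem _ _ hP
    · refine Submodule.span_le.2 ?_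
      rintro v ⟨μ, hμ, rfl⟩
      exact ⟨gQ F J μ, gQ_hom F hF J μ hμ, rfl⟩
  obtain ⟨f, hf1, hf2, hf3⟩ := Submodule.exists_fun_fin_finrank_span_eq K s
  have hr : n = Module.finrank K (Submodule.span K s) := by
    rw [hn, HW, hVW]
  have hli : LinearIndependent K (fun i : Fin n => f (Fin.cast hr i)) :=
    hf3.comp _ (Fin.cast_injective hr)
  have hN := (ded K L N hcard).1 m n (fun i => f (Fin.cast hr i)) hli
  obtain ⟨row, hrow⟩ := rows_exists _ hN
  choose μ hμ hfμ using fun i : Fin n => hf1 (Fin.cast hr i)
  refine ⟨row, μ, hμ, ?_⟩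
  have h1 : (Matrix.of fun i a => aeval (fun t => (row i).2 (y (row i).1 t)) (gQ F J (μ a))) =
      Matrix.of fun i a => (row i).2 (f (Fin.cast hr a) (row i).1) := by
    ext i a
    simp only [Matrix.of_apply]
    rw [hfμ a]
    have e1 : (aeval (joint y) (gQ F J (μ a)) : Fin m → L) (row i).1 =
        aeval (y (row i).1) (gQ F J (μ a)) :=
      MvPolynomial.comp_aeval_apply (joint y) (Pi.evalAlgHom K (fun _ : Fin m => L) (row i).1)
        (gQ F J (μ a))
    rw [e1]
    exact (MvPolynomial.comp_aeval_apply (y (row i).1) (row i).2 (gQ F J (μ a))).symm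
  rw [h1]
  exact hrow

end Pool.DynLehmer.SB
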