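import Pool.Agent.Lib.MP_2194ec_nt.SB.Iface

set_option autoImplicit false

/-!
# Module DED: linear independence of embeddings
-/

namespace Pool.DynLehmer.SB
open MvPolynomial NumberField Pool.DynLehmer

/-- the matrix `(φ c_j)` has independent columns -/
theorem ded_col {K : Type} [Field K] {L : Type} [Field L] [Algebra K L]
    [FiniteDimensional K L] {N : Type} [Field N] [Algebra K N]
    (hcard : Nat.card (L →ₐ[K] N) = Module.finrank K L)
    (l : Fin (Module.finrank K L) → N)
    (h : ∀ φ : L →ₐ[K] N, ∑ j, l j * φ (Module.finBasis K L j) = 0) : l = 0 := by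
  classical
  have hfin : Fintype (L →ₐ[K] N) := minpoly.AlgHom.fintype K L N
  have e : (L →ₐ[K] N) ≃ Fin (Module.finrank K L) := by
    refine Fintype.equivFinOfCardEq ?_
    rw [← Nat.card_eq_fintype_card, hcard]
  let M : Matrix (Fin (Module.finrank K L)) (Fin (Module.finrank K L)) N :=
    Matrix.of fun i j => e.symm i (Module.finBasis K L j)
  have hrow : LinearIndependent N M.row := by
    rw [Fintype.linearIndependent_iff]
    intro g hg
    have h1 := (Fintype.linearIndependent_iff.1
      (linearIndependent_algHom_toLinearMap K L N)) (fun φ => g (e φ)) ?_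
    · intro i
      simpa using h1 (e.symm i)
    · refine (Module.finBasis K L).ext fun j => ?_
      have h2 := congrFun hg j
      rw [LinearMap.sum_apply]
      simp only [LinearMap.smul_apply, AlgHom.toLinearMap_apply, LinearMap.zero_apply,
        smul_eq_mul]
      rw [Finset.sum_apply, ← Equiv.sum_comp e, Pi.zero_apply] at h2
      rw [← h2]
      refine Finset.sum_congr rfl fun φ _ => ?_
      simp [M, Matrix.row]
  have hdet : M.det ≠ 0 := by
    have h1 := (Matrix.linearIndependent_rows_iff_isUnit).1 hrow
    exact (Matrix.isUnit_iff_isUnit_det _).1 h1 |>.ne_zero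
  refine Matrix.eq_zero_of_mulVec_eq_zero hdet ?_
  funext i
  have := h (e.symm i)
  simp only [Matrix.mulVec, dotProduct, M, Matrix.of_apply, Pi.zero_apply]
  rw [← this]
  exact Finset.sum_congr rfl fun j _ => mul_comm _ _

theorem ded : DedStatement := by
  intro K _ _ L _ _ _ N _ _ hcard
  classical
  set c := Module.finBasis K L with hc
  have hexp : ∀ (φ : L →ₐ[K] N) (a : L), φ a = ∑ j, algebraMap K N (c.repr a j) * φ (c j) := by
    intro φ a
    conv_lhs => rw [← c.sum_repr a]
    rw [map_sum]
    refine Finset.sum_congr rfl fun j _ => ?_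
    rw [map_smul, Algebra.smul_def]
  constructor
  · intro m n a ha
    rw [Fintype.linearIndependent_iff]
    intro g hg
    have h1 : ∀ (x : Fin m) (j), ∑ i, c.repr (a i x) j • g i = 0 := by
      intro x j
      have h2 := ded_col hcard (fun j => ∑ i, c.repr (a i x) j • g i) (fun φ => ?_)
      · exact congrFun h2 j
      · have h3 := congrFun hg (x, φ)
        simp only [Finset.sum_apply, Pi.smul_apply, smul_eq_mul, Pi.zero_apply] at h3
        rw [← h3]
        simp only [Finset.sum_mul]
        rw [Finset.sum_comm]
        refine Finset.sum_congr rfl fun i _ => ?_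
        rw [hexp φ (a i x), Finset.mul_sum]
        refine Finset.sum_congr rfl fun j _ => ?_
        rw [Algebra.smul_def]
        ring
    let β := Module.Basis.ofVectorSpace K N
    have h4 : ∀ s, ∀ i, β.repr (g i) s = 0 := by
      intro s
      refine Fintype.linearIndependent_iff.1 ha (fun i => β.repr (g i) s) ?_
      funext x
      refine c.repr.injective ?_
      ext j
      have h5 := congrArg (fun z => β.repr z s) (h1 x j)
      simp only [map_sum, map_smul, map_zero, Finsupp.coe_finsetSum, Finset.sum_apply,
        Finsupp.smul_apply, smul_eq_mul, Finsupp.coe_zero, Pi.zero_apply] at h5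
      simp only [Finset.sum_apply, Pi.smul_apply, Pi.zero_apply, map_sum, map_smul, map_zero,
        Finsupp.coe_finsetSum, Finsupp.smul_apply, smul_eq_mul, Finsupp.coe_zero]
      rw [← h5]
      exact Finset.sum_congr rfl fun i _ => mul_comm _ _
    intro i
    refine β.repr.injective ?_
    ext s
    simpa using h4 s i
  · intro κ _ b hb a h i
    refine c.repr.injective ?_
    ext j
    have h1 := ded_col hcard (fun j => ∑ i, c.repr (a i) j • b i) (fun φ => ?_)
    · have h2 := Fintype.linearIndependent_iff.1 hb (fun i => c.repr (a i) j) (congrFun h1 j) i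
      simpa using h2
    · rw [← h φ]
      simp only [Finset.sum_mul]
      rw [Finset.sum_comm]
      refine Finset.sum_congr rfl fun i _ => ?_
      rw [hexp φ (a i), Finset.mul_sum]
      refine Finset.sum_congr rfl fun j _ => ?_
      rw [Algebra.smul_def]
      ring

end Pool.DynLehmer.SB
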