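import Pool.Agent.Lib.MP_2194ec_nt.SB.Iface

set_option autoImplicit false

/-!
# Module CARDW
-/

namespace Pool.DynLehmer.SB
open MvPolynomial Pool.DynLehmer
open scoped Classical

theorem cardW : CardWStatement := by
  intro ι _ _ W
  obtain ⟨i0⟩ := (inferInstance : Nonempty ι)
  have hcard : Fintype.card ({i : ι // i ≠ i0} → Fin (W + 1)) =
      (W + 1) ^ (Fintype.card ι - 1) := by
    rw [Fintype.card_fun, Fintype.card_fin]
    congr 1
    have h := Fintype.card_subtype_compl (fun i : ι => i = i0)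
    rw [Fintype.card_subtype_eq] at h
    exact h
  rw [← hcard, ← Finset.card_univ]
  refine Finset.card_le_card_of_injOn
    (fun d => fun i : {i : ι // i ≠ i0} => Fin.ofNat (W + 1) (d i.1))
    (fun d _ => Finset.mem_coe.2 (Finset.mem_univ _)) ?_
  intro d hd e he hde
  have key : ∀ d : ι →₀ ℕ, d ∈ (Finset.univ : Finset ι).finsuppAntidiag W → ∀ i, d i ≤ W := by
    intro d hd i
    rw [Finset.mem_finsuppAntidiag] at hd
    rw [← hd.1]
    exact Finset.single_le_sum (f := fun i => d i) (fun _ _ => Nat.zero_le _) (Finset.mem_univ i)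
  have hne : ∀ i, i ≠ i0 → d i = e i := by
    intro i hi
    have h1 := congrFun hde ⟨i, hi⟩
    have h2 := congrArg Fin.val h1
    simp only [Fin.ofNat] at h2
    rw [Nat.mod_eq_of_lt (Nat.lt_succ_of_le (key d (Finset.mem_coe.1 hd) i)),
      Nat.mod_eq_of_lt (Nat.lt_succ_of_le (key e (Finset.mem_coe.1 he) i))] at h2
    exact h2
  have hd' := (Finset.mem_finsuppAntidiag.1 (Finset.mem_coe.1 hd)).1
  have he' := (Finset.mem_finsuppAntidiag.1 (Finset.mem_coe.1 he)).1
  rw [← Finset.add_sum_erase _ _ (Finset.mem_univ i0)] at hd' he'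
  have h3 : ∑ x ∈ Finset.univ.erase i0, d x = ∑ x ∈ Finset.univ.erase i0, e x :=
    Finset.sum_congr rfl (fun i hi => hne i (Finset.ne_of_mem_erase hi))
  ext i
  by_cases hi : i = i0
  · subst hi
    omega
  · exact hne i hi

end Pool.DynLehmer.SB
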