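import Pool.Agent.Lib.MP_2194ec_nt.SB.Iface

set_option autoImplicit false

/-!
# Module EULER (helper72): Hasse derivatives of smaller order of a form
-/

namespace Pool.DynLehmer.SB
open MvPolynomial
open scoped Classical

section
variable {R : Type} [CommRing R] {ι : Type}

theorem euler_shift_C (a : R) : shift (ι := ι) (C a) = C (C a) := by
  have h : (C a : MvPolynomial ι R) = algebraMap R _ a := rfl
  rw [h, AlgHom.commutes]
  rfl

theorem euler_hsd_mul_X (α : ι →₀ ℕ) (k : ι) (P : MvPolynomial ι R) :
    hsd α (P * X k) = hsd α P * X k +
      if α k ≠ 0 then hsd (α - Finsupp.single k 1) P else 0 := by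
  unfold hsd
  have h1 : shift (P * X k) = shift P * C (X k) + shift P * X k := by
    rw [map_mul, ← mul_add]
    congr 1
    unfold shift
    rw [aeval_X]
  rw [h1, coeff_add, mul_comm (shift P) (C (X k)), coeff_C_mul, mul_comm (X k), coeff_mul_X']
  congr 1
  by_cases h : α k = 0 <;> simp [h]

theorem pderiv_hsd (i : ι) (Q : MvPolynomial ι R) :
    ∀ α : ι →₀ ℕ, pderiv i (hsd α Q) =
      (((α i + 1 : ℕ) : R)) • hsd (α + Finsupp.single i 1) Q := by
  induction Q using MvPolynomial.induction_on with
  | C a =>
    intro α
    have h1 : hsd α (C a : MvPolynomial ι R) = if 0 = α then C a else 0 := by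
      unfold hsd
      rw [euler_shift_C, coeff_C]
    have h2 : hsd (α + Finsupp.single i 1) (C a : MvPolynomial ι R) = 0 := by
      unfold hsd
      rw [euler_shift_C, coeff_C, if_neg]
      intro h
      have := congrArg (fun f : ι →₀ ℕ => f i) h
      simp at this
    rw [h1, h2, smul_zero]
    split_ifs
    · exact pderiv_C
    · exact map_zero _
  | add P Q hP hQ =>
    intro α
    have hadd : ∀ (β : ι →₀ ℕ), hsd β (P + Q) = hsd β P + hsd β Q := fun β => by
      unfold hsd
      rw [map_add, coeff_add]
    rw [hadd, hadd, map_add, hP, hQ, smul_add]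
  | mul_X P k hP =>
    intro α
    rw [euler_hsd_mul_X, euler_hsd_mul_X, map_add, pderiv_mul, hP, pderiv_X]
    by_cases hik : i = k
    · subst hik
      have h1 : (α + Finsupp.single i 1 : ι →₀ ℕ) i ≠ 0 := by simp
      have h2 : α + Finsupp.single i 1 - Finsupp.single i 1 = α := by
        simp
      rw [if_pos h1, h2, Pi.single_eq_same]
      by_cases h0 : α i = 0
      · rw [if_neg (by simpa using h0), map_zero, h0]
        simp
      · rw [if_pos h0, hP]
        have h3 : α - Finsupp.single i 1 + Finsupp.single i 1 = α := by
          ext j
          by_cases hj : j = i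
          · subst hj
            simp
            omega
          · simp [Ne.symm hj]
        have h4 : (α - Finsupp.single i 1 : ι →₀ ℕ) i + 1 = α i := by
          simp
          omega
        rw [h3, h4]
        simp only [Algebra.smul_def, Nat.cast_add, Nat.cast_one, map_add, map_one, algebraMap_eq,
          map_natCast]
        ring
    · have h1 : (α + Finsupp.single i 1 : ι →₀ ℕ) k = α k := by
        simp [hik]
      rw [h1, Pi.single_eq_of_ne (Ne.symm hik)]
      by_cases h0 : α k = 0
      · rw [if_neg (by simpa using h0), if_neg (by simpa using h0), map_zero]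
        simp
      · rw [if_pos h0, if_pos h0, hP]
        have h3 : α + Finsupp.single i 1 - Finsupp.single k 1 =
            α - Finsupp.single k 1 + Finsupp.single i 1 := by
          ext j
          by_cases hj : j = k
          · subst hj
            simp [hik]
          · simp [Ne.symm hj]
        have h4 : (α - Finsupp.single k 1 : ι →₀ ℕ) i = α i := by
          simp [Ne.symm hik]
        rw [h3, h4]
        simp

end

theorem euler : HasseStatement → EulerStatement := by
  intro hH R _ _ ι _ Q n W hQ hW c h0
  have key : ∀ d : ℕ, d ≤ W → ∀ α : ι →₀ ℕ, α.degree = W - d → eval c (hsd α Q) = 0 := by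
    intro d
    induction d with
    | zero =>
      intro _ α hα
      exact h0 α (by simpa using hα)
    | succ d ih =>
      intro hd α hα
      have h1 : (hsd α Q).IsHomogeneous (n - α.degree) := hH.2.2.2.1 R ι α Q n hQ
      have h2 := congrArg (eval c) h1.sum_X_mul_pderiv
      rw [map_sum, map_nsmul] at h2
      have h3 : ∑ i, eval c (X i * pderiv i (hsd α Q)) = 0 := by
        refine Finset.sum_eq_zero fun i _ => ?_
        rw [map_mul, pderiv_hsd, smul_eval]
        have h4 : (α + Finsupp.single i 1).degree = W - d := by
          rw [map_add, Finsupp.degree_single, hα]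
          omega
        rw [ih (by omega) _ h4, mul_zero, mul_zero]
      rw [h3] at h2
      have h5 : (n - α.degree : ℕ) ≠ 0 := by omega
      rcases smul_eq_zero.1 h2.symm with h6 | h6
      · exact absurd h6 h5
      · exact h6
  intro α hα
  exact key (W - α.degree) (by omega) α (by omega)

end Pool.DynLehmer.SB
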