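import Pool.Agent.Lib.MP_2194ec_nt.SB.Iface

set_option autoImplicit false

/-!
# Module HASSE (helper72): Hasse derivatives of polynomials in several variables
-/

namespace Pool.DynLehmer.SB
open MvPolynomial
open scoped Classical

section
variable {R : Type} [CommRing R] {ι : Type}

theorem shift_C (a : R) : shift (ι := ι) (C a) = C (C a) := by
  have h : (C a : MvPolynomial ι R) = algebraMap R _ a := rfl
  rw [h, AlgHom.commutes]
  rfl

theorem shift_X (k : ι) : shift (R := R) (X k) = C (X k) + X k := by
  unfold shift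
  rw [aeval_X]

theorem eval_shift [Fintype ι] (Q : MvPolynomial ι R) (u c : ι → R) :
    eval₂ (eval c) (fun k => u k - c k) (shift Q) = eval u Q := by
  have h : ((eval₂Hom (eval c) (fun k => u k - c k)).comp (shift (R := R) (ι := ι)).toRingHom) =
      eval u := by
    refine MvPolynomial.ringHom_ext ?_ ?_
    · intro a
      change eval₂ (eval c) (fun k => u k - c k) (shift (C a)) = eval u (C a)
      rw [shift_C]
      simp
    · intro k
      change eval₂ (eval c) (fun k => u k - c k) (shift (X k)) = eval u (X k)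
      rw [shift_X]
      simp
  have h2 := congrArg (fun f : MvPolynomial ι R →+* R => f Q) h
  exact h2

theorem hasse_taylor [Fintype ι] (Q : MvPolynomial ι R) (u c : ι → R) :
    eval u Q = ∑ α ∈ (shift Q).support, eval c (hsd α Q) * ∏ k, (u k - c k) ^ (α k) := by
  rw [← eval_shift Q u c, eval₂_eq']
  rfl

theorem hsd_add (α : ι →₀ ℕ) (P Q : MvPolynomial ι R) :
    hsd α (P + Q) = hsd α P + hsd α Q := by
  unfold hsd
  rw [map_add, coeff_add]

theorem hsd_smul (α : ι →₀ ℕ) (a : R) (Q : MvPolynomial ι R) :
    hsd α (a • Q) = a • hsd α Q := by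
  unfold hsd
  rw [map_smul, coeff_smul]

/-- bihomogeneous polynomials -/
def BiHom (n : ℕ) (q : MvPolynomial ι (MvPolynomial ι R)) : Prop :=
  ∀ α : ι →₀ ℕ, (α.degree ≤ n → (coeff α q).IsHomogeneous (n - α.degree)) ∧
    (n < α.degree → coeff α q = 0)

theorem BiHom.add {n : ℕ} {p q : MvPolynomial ι (MvPolynomial ι R)} (hp : BiHom n p)
    (hq : BiHom n q) : BiHom n (p + q) := by
  intro α
  refine ⟨fun h => ?_, fun h => ?_⟩
  · rw [coeff_add]
    exact ((hp α).1 h).add ((hq α).1 h)
  · rw [coeff_add, (hp α).2 h, (hq α).2 h, add_zero]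

theorem BiHom.zero (n : ℕ) : BiHom n (0 : MvPolynomial ι (MvPolynomial ι R)) := by
  intro α
  refine ⟨fun _ => ?_, fun _ => ?_⟩
  · rw [coeff_zero]
    exact isHomogeneous_zero _ _ _
  · rw [coeff_zero]

theorem BiHom.sum {n : ℕ} {κ : Type} (s : Finset κ) (f : κ → MvPolynomial ι (MvPolynomial ι R))
    (h : ∀ k ∈ s, BiHom n (f k)) : BiHom n (∑ k ∈ s, f k) := by
  induction s using Finset.induction_on with
  | empty => simpa using BiHom.zero n
  | insert a s ha ih =>
    rw [Finset.sum_insert ha]
    exact (h a (Finset.mem_insert_self a s)).add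
      (ih fun k hk => h k (Finset.mem_insert_of_mem hk))

theorem BiHom.mul {m n : ℕ} {p q : MvPolynomial ι (MvPolynomial ι R)} (hp : BiHom m p)
    (hq : BiHom n q) : BiHom (m + n) (p * q) := by
  intro α
  refine ⟨fun h => ?_, fun h => ?_⟩
  · rw [coeff_mul]
    refine IsHomogeneous.sum _ _ _ fun x hx => ?_
    rw [Finset.HasAntidiagonal.mem_antidiagonal] at hx
    have hd : x.1.degree + x.2.degree = α.degree := by rw [← hx, map_add]
    by_cases h1 : x.1.degree ≤ m
    · by_cases h2 : x.2.degree ≤ n
      · have h3 := ((hp x.1).1 h1).mul ((hq x.2).1 h2)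
        have h4 : m - x.1.degree + (n - x.2.degree) = m + n - α.degree := by omega
        rw [h4] at h3
        exact h3
      · rw [(hq x.2).2 (by omega), mul_zero]
        exact isHomogeneous_zero _ _ _
    · rw [(hp x.1).2 (by omega), zero_mul]
      exact isHomogeneous_zero _ _ _
  · rw [coeff_mul]
    refine Finset.sum_eq_zero fun x hx => ?_
    rw [Finset.HasAntidiagonal.mem_antidiagonal] at hx
    have hd : x.1.degree + x.2.degree = α.degree := by rw [← hx, map_add]
    by_cases h1 : x.1.degree ≤ m
    · rw [(hq x.2).2 (by omega), mul_zero]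
    · rw [(hp x.1).2 (by omega), zero_mul]

theorem BiHom.C (a : R) : BiHom 0 (MvPolynomial.C (MvPolynomial.C a) :
    MvPolynomial ι (MvPolynomial ι R)) := by
  intro α
  refine ⟨fun h => ?_, fun h => ?_⟩
  · rw [coeff_C]
    split_ifs
    · simpa using isHomogeneous_C ι a
    · exact isHomogeneous_zero _ _ _
  · rw [coeff_C, if_neg]
    rintro rfl
    simp at h

theorem BiHom.one : BiHom 0 (1 : MvPolynomial ι (MvPolynomial ι R)) := by
  have h := BiHom.C (ι := ι) (1 : R)
  simpa using h

theorem BiHom.X (k : ι) : BiHom 1 (MvPolynomial.C (MvPolynomial.X k) + MvPolynomial.X k :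
    MvPolynomial ι (MvPolynomial ι R)) := by
  refine BiHom.add ?_ ?_
  · intro α
    refine ⟨fun h => ?_, fun h => ?_⟩
    · rw [coeff_C]
      split_ifs with h0
      · subst h0
        simpa using isHomogeneous_X R k
      · exact isHomogeneous_zero _ _ _
    · rw [coeff_C, if_neg]
      rintro rfl
      simp at h
  · intro α
    refine ⟨fun h => ?_, fun h => ?_⟩
    · rw [coeff_X]
      split_ifs with h0
      · subst h0
        simpa using isHomogeneous_one ι R
      · exact isHomogeneous_zero _ _ _
    · rw [coeff_X, if_neg]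
      rintro rfl
      simp at h

theorem BiHom.pow {n : ℕ} {p : MvPolynomial ι (MvPolynomial ι R)} (hp : BiHom n p) (e : ℕ) :
    BiHom (n * e) (p ^ e) := by
  induction e with
  | zero => simpa using BiHom.one
  | succ e ih =>
    rw [pow_succ, Nat.mul_succ]
    exact ih.mul hp

theorem BiHom.prod {κ : Type} (s : Finset κ) (f : κ → MvPolynomial ι (MvPolynomial ι R))
    (d : κ → ℕ) (h : ∀ k ∈ s, BiHom (d k) (f k)) : BiHom (∑ k ∈ s, d k) (∏ k ∈ s, f k) := by
  induction s using Finset.induction_on with
  | empty => simpa using BiHom.one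
  | insert a s ha ih =>
    rw [Finset.sum_insert ha, Finset.prod_insert ha]
    exact (h a (Finset.mem_insert_self a s)).mul
      (ih fun k hk => h k (Finset.mem_insert_of_mem hk))

theorem shift_bihom (Q : MvPolynomial ι R) (n : ℕ) (hQ : Q.IsHomogeneous n) :
    BiHom n (shift Q) := by
  have h1 : shift Q = ∑ m ∈ Q.support, (MvPolynomial.C (MvPolynomial.C (coeff m Q)) :
      MvPolynomial ι (MvPolynomial ι R)) *
      ∏ k ∈ m.support, (MvPolynomial.C (MvPolynomial.X k) + MvPolynomial.X k) ^ (m k) := by
    conv_lhs => rw [Q.as_sum]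
    rw [map_sum]
    refine Finset.sum_congr rfl fun m _ => ?_
    rw [monomial_eq, map_mul, shift_C, Finsupp.prod, map_prod]
    congr 1
    refine Finset.prod_congr rfl fun k _ => ?_
    rw [map_pow, shift_X]
  rw [h1]
  refine BiHom.sum _ _ fun m hm => ?_
  have hd : m.degree = n := by
    rw [Finsupp.degree_apply]
    exact (hQ.degree_eq_sum_deg_support hm).symm
  have h2 := (BiHom.C (ι := ι) (coeff m Q)).mul (BiHom.prod m.support
    (fun k => (MvPolynomial.C (MvPolynomial.X k) + MvPolynomial.X k :
      MvPolynomial ι (MvPolynomial ι R)) ^ (m k)) (fun k => 1 * m k)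
    fun k _ => (BiHom.X k).pow (m k))
  have h3 : 0 + ∑ k ∈ m.support, 1 * m k = n := by
    rw [zero_add, ← hd, Finsupp.degree_apply]
    simp
  rw [h3] at h2
  exact h2

theorem shift_map {S : Type} [CommRing S] (φ : R →+* S) (Q : MvPolynomial ι R) :
    shift (map φ Q) = map (map φ) (shift Q) := by
  have h : ((shift (R := S) (ι := ι)).toRingHom.comp (map φ)) =
      (map (map φ)).comp (shift (R := R) (ι := ι)).toRingHom := by
    refine MvPolynomial.ringHom_ext ?_ ?_
    · intro a
      change shift (map φ (C a)) = map (map φ) (shift (C a))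
      rw [map_C, shift_C, shift_C, map_C, map_C]
    · intro k
      change shift (map φ (X k)) = map (map φ) (shift (X k))
      rw [map_X, shift_X, shift_X, map_add, map_C, map_X, map_X]
  exact congrArg (fun f : MvPolynomial ι R →+* MvPolynomial ι (MvPolynomial ι S) => f Q) h

end

theorem hasse : HasseStatement := by
  refine ⟨?_, ?_, ?_, ?_, ?_, ?_⟩
  · intro R _ ι _ Q u c
    exact hasse_taylor Q u c
  · intro R _ ι α P Q
    exact hsd_add α P Q
  · intro R _ ι α a Q
    exact hsd_smul α a Q
  · intro R _ ι α Q n hQ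
    by_cases h : α.degree ≤ n
    · exact (shift_bihom Q n hQ α).1 h
    · have h0 : hsd α Q = 0 := (shift_bihom Q n hQ α).2 (by omega)
      rw [h0]
      exact isHomogeneous_zero _ _ _
  · intro R _ ι α Q n hQ h
    exact (shift_bihom Q n hQ α).2 h
  · intro R S _ _ φ ι α Q
    unfold hsd
    rw [shift_map, coeff_map]

end Pool.DynLehmer.SB
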