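import Mathlib
import Pool.Agent.Lib.MP_2194ec_nt.GenClose
import Pool.Agent.Lib.MP_2194ec_nt.SB.Iface

set_option autoImplicit false

/-!
# Module LOCAL
-/

namespace Pool.DynLehmer.SB
open MvPolynomial NumberField Pool.DynLehmer
open scoped Classical

section loc

variable {N : Type} [Field N] [NumberField N] (w : FinitePlace N) {ι : Type} {κ : Type}

/-- functionals which detect a finite dimensional subspace -/
theorem exists_detect {V : Type} [AddCommGroup V] [Module N V] (H : Submodule N V)
    [FiniteDimensional N H] : ∃ g : V →ₗ[N] (Fin (Module.finrank N H) → N),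
      ∀ y ∈ H, g y = 0 → y = 0 := by
  have e : H ≃ₗ[N] (Fin (Module.finrank N H) → N) :=
    LinearEquiv.ofFinrankEq _ _ (by simp)
  obtain ⟨g, hg⟩ := LinearMap.exists_extend e.toLinearMap
  refine ⟨g, fun y hy h0 => ?_⟩
  have h1 : g (H.subtype ⟨y, hy⟩) = e ⟨y, hy⟩ := congrArg (fun f => f ⟨y, hy⟩) hg
  have h2 : e ⟨y, hy⟩ = 0 := by rw [← h1]; exact h0
  have h3 : (⟨y, hy⟩ : H) = 0 := by
    rw [← e.map_eq_zero_iff]; exact h2
  exact congrArg Subtype.val h3

/-- the Hasse derivative as a linear map -/
noncomputable def hsdLin (hH : HasseStatement) {R : Type} [CommRing R] {ι : Type}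
    (α : ι →₀ ℕ) : MvPolynomial ι R →ₗ[R] MvPolynomial ι R where
  toFun := hsd α
  map_add' P Q := hH.2.1 R ι α P Q
  map_smul' a Q := hH.2.2.1 R ι α a Q

/-- values at the centres of a Hasse derivative -/
noncomputable def vals (hH : HasseStatement) (cc : κ → ι → N) (α : ι →₀ ℕ) :
    MvPolynomial ι (OW w) →ₗ[OW w] (κ → N) where
  toFun Q := fun k => eval (cc k) (hsd α (map (OW w).subtype Q))
  map_add' P Q := by
    funext k
    simp only [map_add, Pi.add_apply]
    rw [hH.2.1, map_add]
  map_smul' a Q := by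
    funext k
    have h1 : map (OW w).subtype (a • Q) = (a : N) • map (OW w).subtype Q := by
      rw [MvPolynomial.smul_eq_C_mul, map_mul, map_C, MvPolynomial.smul_eq_C_mul]
      rfl
    rw [h1, hH.2.2.1, smul_eval]
    rfl

end loc

/-- module LOCAL -/
theorem local_sharp (hH : HasseStatement) (hE : EulerStatement) (hS : SaturStatement)
    (hC : CardWStatement) : LocalStatement := by
  intro K _ _ N _ _ _ p s ι _ _ _ v w e Φ h hϖ F hΦF n J b μ hμ z κ _ cc t ht0 ht1 W r hWT hcl hr
  choose k hk using hcl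
  choose a bb u u' ha hb hzu hcu hprim hprim' hd using hk
  set T := dl b (p ^ s) J with hT
  set Ψ := Φ.map (toOW h) with hΨ
  have hΨF : ∀ i, map (OW w).subtype (Ψ.F i) = map (algebraMap K N) (F i) := by
    intro i
    rw [hΨ, GF.map_F, ← hΦF i, MvPolynomial.map_map, subtype_comp_toOW, toN,
      MvPolynomial.map_map]
  -- functionals
  set H := HV cc (T - W) with hHdef
  obtain ⟨g, hg⟩ := exists_detect (N := N) H
  let A : Type := {α // α ∈ (Finset.univ : Finset ι).finsuppAntidiag W} ×
    Fin (Module.finrank N H)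
  have hC' : ∀ D : DecidableEq ι,
      (@Finset.finsuppAntidiag ι ℕ D _ _ _ (Finset.univ : Finset ι) W).card ≤
        (W + 1) ^ (Fintype.card ι - 1) := by
    intro D
    rw [Subsingleton.elim D (fun a b => Classical.propDecidable (a = b))]
    exact hC ι W
  have hcard : Fintype.card A ≤ Fintype.card (Fin r) := by
    rw [Fintype.card_prod, Fintype.card_coe, Fintype.card_fin, Fintype.card_fin]
    exact (Nat.mul_le_mul_right _ (hC' _)).trans hr
  obtain ⟨em⟩ := Function.Embedding.nonempty_of_card_le hcard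
  let gr : (κ → N) →ₗ[OW w] (Fin (Module.finrank N H) → N) := g.restrictScalars (OW w)
  let fn : A → (MvPolynomial ι (OW w) →ₗ[OW w] N) := fun x =>
    (LinearMap.proj x.2).comp (gr.comp (vals w hH cc x.1.1))
  let ℓ : Fin r → (MvPolynomial ι (OW w) →ₗ[OW w] N) := Function.extend em fn 0
  let R : Fin n → (MvPolynomial ι (OW w) →ₗ[OW w] OW w) := fun i => (aeval (u i)).toLinearMap
  have hsat := hS N w (t ^ (W + 1)) (pow_nonneg ht0 _) (pow_le_one₀ ht0 ht1)
    (MvPolynomial ι (OW w)) (homogeneousSubmodule ι (OW w) T) r ℓ (Fin n) R ?_ n id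
    (fun a => gQ Ψ.F J (μ a)) ?_
  · -- end of the proof
    have hdet1 : w (((Matrix.of fun i a => eval (u i) (gQ Ψ.F J (μ a))).det : OW w) : N) ≤
        t ^ ((W + 1) * (n - r)) := by
      rw [pow_mul]
      refine le_trans (le_of_eq ?_) hsat
      congr 3
    have hentry : ∀ i c, aeval (z i) (gQ F J (μ c)) =
        a i ^ T * ((eval (u i) (gQ Ψ.F J (μ c)) : OW w) : N) := by
      intro i c
      have h1 : ((eval (u i) (gQ Ψ.F J (μ c)) : OW w) : N) =
          eval (fun l => (u i l : N)) (map (OW w).subtype (gQ Ψ.F J (μ c))) := by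
        rw [eval_map]
        exact eval₂_comp (OW w).subtype (u i) (gQ Ψ.F J (μ c))
      have h2 : map (OW w).subtype (gQ Ψ.F J (μ c)) = map (algebraMap K N) (gQ F J (μ c)) := by
        rw [map_gQ, map_gQ]
        congr 1
        funext i
        exact hΨF i
      have hFh : ∀ i, (map (algebraMap K N) (F i)).IsHomogeneous (p ^ s) := fun i => by
        rw [← hΨF i]; exact (Ψ.F_hom i).map _
      have h3 : (map (algebraMap K N) (gQ F J (μ c))).IsHomogeneous T := by
        rw [map_gQ]
        exact gQ_hom _ hFh J (μ c) (hμ c)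
      rw [h1, h2, ← eval_smul_hom h3, ← hzu i, eval_map]
      rfl
    have hdet2 : (Matrix.of fun i c => aeval (z i) (gQ F J (μ c))).det =
        (∏ i, a i ^ T) *
          (((Matrix.of fun i c => eval (u i) (gQ Ψ.F J (μ c))).det : OW w) : N) := by
      have h1 : (((Matrix.of fun i c => eval (u i) (gQ Ψ.F J (μ c))).det : OW w) : N) =
          (Matrix.of fun i c => ((eval (u i) (gQ Ψ.F J (μ c)) : OW w) : N)).det := by
        have := (OW w).subtype.map_det (Matrix.of fun i c => eval (u i) (gQ Ψ.F J (μ c)))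
        exact this
      rw [h1, ← Matrix.det_mul_column]
      congr 1
      ext i c
      simp only [Matrix.of_apply]
      exact hentry i c
    rw [hdet2, map_mul, map_prod, mul_comm]
    refine mul_le_mul hdet1 ?_ (Finset.prod_nonneg fun i _ => apply_nonneg w _)
      (pow_nonneg ht0 _)
    refine Finset.prod_le_prod (fun i _ => apply_nonneg w _) fun i _ => ?_
    rw [map_pow, hT, dl_eq, ← Finset.prod_pow_eq_pow_sum]
    refine Finset.prod_le_prod (fun j _ => pow_nonneg (apply_nonneg w _) _) fun j _ => ?_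
    rw [pow_mul]
    refine pow_le_pow_left₀ (pow_nonneg (apply_nonneg w _) _) ?_ b
    -- the norm of the iterates
    have hact : (Φ.map (toN v N)).act = gAct F N := gact_eq_aeval Φ F hΦF N
    obtain ⟨l, hl⟩ := prim_act_iter Φ h hϖ j (u i) (hprim i)
    have h4 : (gAct F N)^[j] (z i) = (a i ^ ((p ^ s) ^ j)) •
        fun l => (((Φ.map (toOW h)).act^[j] (u i) l : OW w) : N) := by
      rw [← hact, hzu i, GF.act_iter_smul, ← gcoe_act_iter Φ h]
    have h5 : w ((gAct F N)^[j] (z i) l) = w (a i) ^ ((p ^ s) ^ j) := by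
      rw [h4]
      simp only [Pi.smul_apply, smul_eq_mul, map_mul, map_pow]
      rw [hl, mul_one]
    rw [← h5]
    exact Finite.le_ciSup (fun l => w ((gAct F N)^[j] (z i) l)) l
  · -- small on the common kernel
    intro x hx hℓ i
    have hxh : x.IsHomogeneous T := (mem_homogeneousSubmodule _ _).1 hx
    set xN := map (OW w).subtype x with hxN
    have hxNh : xN.IsHomogeneous T := hxh.map _
    have hfn : ∀ y : A, fn y x = 0 := by
      intro y
      have h1 := hℓ (em y)
      have h2 : ℓ (em y) = fn y := em.injective.extend_apply fn 0 y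
      rwa [h2] at h1
    have hvan : ∀ α : ι →₀ ℕ, α.degree = W → ∀ k, eval (cc k) (hsd α xN) = 0 := by
      intro α hα
      have hmem : α ∈ (Finset.univ : Finset ι).finsuppAntidiag W := by
        rw [Finset.mem_finsuppAntidiag]
        refine ⟨?_, Finset.subset_univ _⟩
        rw [← hα, Finsupp.degree_eq_sum]
      have h1 : (fun k => eval (cc k) (hsd α xN)) ∈ H := by
        have h2 := hH.2.2.2.1 N ι α xN T hxNh
        rw [hα] at h2
        exact mem_HV h2
      have h2 : g (fun k => eval (cc k) (hsd α xN)) = 0 := by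
        funext j
        exact hfn (⟨α, hmem⟩, j)
      intro k
      exact congrFun (hg _ h1 h2) k
    have hvan2 : ∀ α : ι →₀ ℕ, α.degree ≤ W → eval (u' i) (hsd α x) = 0 := by
      intro α hα
      have h1 := hE N ι xN T W hxNh hWT (cc (k i)) (fun α hα => hvan α hα (k i)) α hα
      have h2 := hH.2.2.2.1 N ι α xN T hxNh
      rw [hcu i, eval_smul_hom h2] at h1
      have h3 : eval (fun j => (u' i j : N)) (hsd α xN) = 0 :=
        (mul_eq_zero.1 h1).resolve_left (pow_ne_zero _ (hb i))
      rw [hxN, hH.2.2.2.2.2, eval_map] at h3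
      have h4 : ((eval (u' i) (hsd α x) : OW w) : N) = 0 := by
        rw [← h3]
        exact eval₂_comp (OW w).subtype (u' i) (hsd α x)
      exact Subtype.ext h4
    have hval : R i x = eval (u i) x := by
      change aeval (u i) x = _
      rw [aeval_eq_eval]
    rw [hval, hH.1 (OW w) ι x (u i) (u' i), AddSubmonoidClass.coe_finsetSum]
    refine finitePlace_sum_le w _ _ _ (pow_nonneg ht0 _) fun α _ => ?_
    rcases le_or_gt α.degree W with h1 | h1
    · rw [hvan2 α h1, zero_mul]
      simpa using pow_nonneg ht0 _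
    · rw [Subring.coe_mul, map_mul, SubmonoidClass.coe_finsetProd, map_prod]
      have h2 : ∏ j, w (((u i j - u' i j) ^ α j : OW w) : N) ≤ t ^ (W + 1) := by
        calc ∏ j, w (((u i j - u' i j) ^ α j : OW w) : N) ≤ ∏ j, t ^ α j := by
              refine Finset.prod_le_prod (fun j _ => apply_nonneg w _) fun j _ => ?_
              rw [Subring.coe_pow, map_pow]
              refine pow_le_pow_left₀ (apply_nonneg w _) ?_ _
              exact hd i j
          _ = t ^ α.degree := by rw [Finset.prod_pow_eq_pow_sum, Finsupp.degree_eq_sum]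
          _ ≤ t ^ (W + 1) := pow_le_pow_of_le_one ht0 ht1 h1
      calc w ((eval (u' i) (hsd α x) : OW w) : N) * ∏ j, w (((u i j - u' i j) ^ α j : OW w) : N)
          ≤ 1 * t ^ (W + 1) := mul_le_mul (eval (u' i) (hsd α x) : OW w).2 h2
            (Finset.prod_nonneg fun j _ => apply_nonneg w _) zero_le_one
        _ = t ^ (W + 1) := one_mul _
  · intro c
    exact (mem_homogeneousSubmodule _ _).2 (gQ_hom _ Ψ.F_hom J (μ c) (hμ c))

end Pool.DynLehmer.SB
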