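import Mathlib
import Pool.Agent.Lib.MP_2194ec_nt.Energy
import Pool.Agent.Lib.MP_2194ec_nt.SB.Iface

set_option autoImplicit false

/-!
# Determinants of rows which are small on the common kernel of `r` functionals
-/

namespace Pool.DynLehmer.SB
open MvPolynomial NumberField Pool.DynLehmer
open scoped Classical

theorem satur_aux (N : Type) [Field N] [NumberField N] (w : FinitePlace N) (ω : ℝ) (h0 : 0 ≤ ω)
    (h1 : ω ≤ 1) (M : Type) [AddCommGroup M] [Module (OW w) M] (κ : Type)
    (R : κ → M →ₗ[OW w] OW w) (r : ℕ) :
    ∀ (V : Submodule (OW w) M) (ℓ : Fin r → M →ₗ[OW w] N),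
      (∀ x ∈ V, (∀ j, ℓ j x = 0) → ∀ k, w ((R k x : OW w) : N) ≤ ω) →
      ∀ (n : ℕ) (row : Fin n → κ) (x : Fin n → M), (∀ a, x a ∈ V) →
        w (((Matrix.of fun i a => R (row i) (x a)).det : OW w) : N) ≤ ω ^ (n - r) := by
  induction r with
  | zero =>
    intro V ℓ hV n row x hx
    have h2 : (((Matrix.of fun i a => R (row i) (x a)).det : OW w) : N) =
        (Matrix.of fun i a => ((R (row i) (x a) : OW w) : N)).det := by
      have := RingHom.map_det (OW w).subtype (Matrix.of fun i a => R (row i) (x a))
      exact this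
    rw [h2]
    refine (det_le_finite w _ (fun _ => ω) (fun _ => h0) ?_).trans ?_
    · intro i j
      exact hV (x j) (hx j) (fun j => j.elim0) (row i)
    · rw [Finset.prod_const, Finset.card_univ, Fintype.card_fin, Nat.sub_zero]
  | succ r ih =>
    intro V ℓ hV n row x hx
    -- the functional used for the elimination
    set lam : M →ₗ[OW w] N := ℓ (Fin.last r) with hlam
    set V' : Submodule (OW w) M := V ⊓ LinearMap.ker lam with hV'
    have hVs : ∀ x ∈ V', (∀ j : Fin r, ℓ j.castSucc x = 0) →
        ∀ k, w ((R k x : OW w) : N) ≤ ω := by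
      intro y hy hj k
      rw [hV', Submodule.mem_inf, LinearMap.mem_ker] at hy
      refine hV y hy.1 (fun j => ?_) k
      induction j using Fin.lastCases with
      | last => exact hy.2
      | cast j => exact hj j
    have IH := ih V' (fun j => ℓ j.castSucc) hVs
    rcases n with _ | n
    · simp
    obtain ⟨a0, ha0⟩ : ∃ a0 : Fin (n + 1), ∀ a, w (lam (x a)) ≤ w (lam (x a0)) :=
      Finite.exists_max fun a => w (lam (x a))
    by_cases hz : lam (x a0) = 0
    · have h2 : ∀ a, x a ∈ V' := by
        intro a
        rw [hV', Submodule.mem_inf, LinearMap.mem_ker]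
        refine ⟨hx a, ?_⟩
        have h3 := ha0 a
        rw [hz, map_zero] at h3
        by_contra hne
        exact absurd h3 (not_le.2 ((AbsoluteValue.pos_iff w.1).2 hne))
      refine (IH (n + 1) row x h2).trans ?_
      exact pow_le_pow_of_le_one h0 h1 (by omega)
    · have hpos : 0 < w (lam (x a0)) := (AbsoluteValue.pos_iff w.1).2 hz
      have hc : ∀ a, (lam (x a) / lam (x a0)) ∈ OW w := by
        intro a
        rw [mem_OW, map_div₀]
        exact div_le_one_of_le₀ (ha0 a) hpos.le
      set c : Fin (n + 1) → OW w := fun a => if a = a0 then 0 else ⟨_, hc a⟩ with hcdef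
      have hca0 : c a0 = 0 := by rw [hcdef]; simp
      have hcne : ∀ a, a ≠ a0 → ((c a : OW w) : N) = lam (x a) / lam (x a0) := by
        intro a ha
        rw [hcdef]
        simp [ha]
      set x' : Fin (n + 1) → M := fun a => x a - c a • x a0 with hx'
      have hxa0 : x' a0 = x a0 := by rw [hx']; simp [hca0]
      have hker : ∀ a, a ≠ a0 → x' a ∈ V' := by
        intro a ha
        rw [hV', Submodule.mem_inf, LinearMap.mem_ker]
        refine ⟨V.sub_mem (hx a) (V.smul_mem _ (hx a0)), ?_⟩
        rw [hx']
        simp only [map_sub, map_smul]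
        rw [Subring.smul_def, smul_eq_mul, hcne a ha, div_mul_cancel₀ _ hz, sub_self]
      have hdet : (Matrix.of fun i a => R (row i) (x a)).det =
          (Matrix.of fun i a => R (row i) (x' a)).det := by
        rw [← Matrix.det_transpose (Matrix.of fun i a => R (row i) (x a)),
          ← Matrix.det_transpose (Matrix.of fun i a => R (row i) (x' a))]
        refine Matrix.det_eq_of_forall_row_eq_smul_add_const c a0 hca0 ?_
        intro a i
        simp only [Matrix.transpose_apply, Matrix.of_apply]
        rw [hxa0]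
        have h3 : x a = x' a + c a • x a0 := by rw [hx']; simp
        rw [h3, map_add, map_smul, smul_eq_mul]
      rw [hdet, Matrix.det_succ_column _ a0]
      rw [AddSubmonoidClass.coe_finsetSum]
      refine finitePlace_sum_le w _ _ _ (pow_nonneg h0 _) fun i _ => ?_
      have hmin := IH n (fun i' => row (i.succAbove i')) (fun a' => x' (a0.succAbove a'))
        (fun a' => hker _ (Fin.succAbove_ne a0 a'))
      have hsub : (Matrix.of fun i a => R (row i) (x' a)).submatrix i.succAbove a0.succAbove =
          Matrix.of fun i' a' => R (row (i.succAbove i')) (x' (a0.succAbove a')) := rfl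
      rw [hsub, Subring.coe_mul, map_mul]
      have h4 : w ((((-1 : OW w)) ^ (i + a0 : ℕ) *
          (Matrix.of fun i a => R (row i) (x' a)) i a0 : OW w) : N) ≤ 1 :=
        ((((-1 : OW w)) ^ (i + a0 : ℕ) * (Matrix.of fun i a => R (row i) (x' a)) i a0 : OW w)).2
      calc _ ≤ 1 * ω ^ (n - r) := mul_le_mul h4 hmin (apply_nonneg w _) zero_le_one
        _ = ω ^ (n + 1 - (r + 1)) := by rw [one_mul, Nat.add_sub_add_right]

/-- module SATUR -/
theorem satur : SaturStatement := by
  intro N _ _ w ω h0 h1 M _ _ V r ℓ κ R hV n row x hx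
  exact satur_aux N w ω h0 h1 M κ R r V ℓ hV n row x hx

end Pool.DynLehmer.SB
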