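import Pool.Agent.Lib.MP_2194ec_nt.RelMain
import Pool.Agent.Lib.MP_2194ec_nt.SB.Iface

set_option autoImplicit false

/-!
# Theorem B, module ENDG (helper65): the choice of the parameters
-/

namespace Pool.DynLehmer.SB
open MvPolynomial NumberField Pool.DynLehmer
open scoped Classical

theorem endg : EndgStatement := by
  intro lam C1 κ N' c0 hlam hC1 hκ hc0
  set B : ℝ := max 1 (2 * C1 * (2 + κ) / lam) with hB
  have hB1 : 1 ≤ B := le_max_left _ _
  have hB2 : 2 * C1 * (2 + κ) ≤ B * lam := by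
    have h1 : 2 * C1 * (2 + κ) / lam ≤ B := le_max_right _ _
    rwa [div_le_iff₀ hlam] at h1
  have hc0r : (1 : ℝ) ≤ (c0 : ℝ) := by exact_mod_cast hc0
  refine ⟨c0 * (2 * B) ^ N', by positivity, fun D hD => ?_⟩
  have hlogD : 0 ≤ Real.log D := Real.log_nonneg hD
  set y := 1 + Real.log D with hy
  have hy1 : 1 ≤ y := by linarith
  obtain ⟨e1, e2, e3⟩ := rpow_aux hy1 N'
  set r := y ^ (1 / ((N' : ℝ) + 1)) with hr
  set U := ⌈B * r⌉₊ with hU
  have hUge : B * r ≤ U := Nat.le_ceil _
  have hBr : 1 ≤ B * r := one_le_mul_of_one_le_of_one_le hB1 e3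
  have hU1 : (1 : ℝ) ≤ U := hBr.trans hUge
  have hUle : (U : ℝ) ≤ 2 * B * r := by
    have := (Nat.ceil_lt_add_one (a := B * r) (by linarith)).le
    rw [← hU] at this
    linarith
  refine ⟨U, by exact_mod_cast hU1, ?_, ?_⟩
  · have hBU : B ≤ U := by
      calc B = B * 1 := (mul_one _).symm
        _ ≤ B * r := by gcongr
        _ ≤ U := hUge
    have hX1 : B * y ≤ (U : ℝ) ^ (N' + 1) := by
      calc B * y = B ^ 1 * r ^ (N' + 1) := by rw [e1, pow_one]
        _ ≤ B ^ (N' + 1) * r ^ (N' + 1) :=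
            mul_le_mul_of_nonneg_right (pow_le_pow_right₀ hB1 (by omega)) (by positivity)
        _ = (B * r) ^ (N' + 1) := (mul_pow _ _ _).symm
        _ ≤ (U : ℝ) ^ (N' + 1) := pow_le_pow_left₀ (by linarith) hUge _
    set m : ℝ := ((c0 * U ^ N' : ℕ) : ℝ) with hm
    have hmv : m = (c0 : ℝ) * (U : ℝ) ^ N' := by
      rw [hm]; push_cast; ring
    have hm1 : 1 ≤ m := by
      rw [hmv]
      exact one_le_mul_of_one_le_of_one_le hc0r (one_le_pow₀ hU1)
    have hlogm : Real.log m ≤ m := by
      have := Real.log_le_sub_one_of_pos (show (0 : ℝ) < m by linarith)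
      linarith
    rw [Real.log_mul (by linarith) (by linarith)]
    -- first half
    have h1 : C1 * (1 + κ * m + Real.log m) ≤ lam / 2 * (U * m) := by
      have a1 : 1 + κ * m + Real.log m ≤ (2 + κ) * m := by linarith
      have a2 : C1 * (1 + κ * m + Real.log m) ≤ C1 * ((2 + κ) * m) := by gcongr
      have a3 : 2 * C1 * (2 + κ) * m ≤ U * lam * m := by
        have : B * lam ≤ U * lam := by gcongr
        have : 2 * C1 * (2 + κ) ≤ U * lam := hB2.trans this
        gcongr
      linarith
    have h2 : C1 * Real.log D ≤ lam / 2 * (U * m) := by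
      have b1 : C1 * Real.log D ≤ C1 * y := by
        have : Real.log D ≤ y := by linarith
        gcongr
      have b2 : 2 * C1 * y ≤ B * lam * y := by
        have : 2 * C1 * 1 ≤ 2 * C1 * (2 + κ) := by
          have : (1 : ℝ) ≤ 2 + κ := by linarith
          gcongr
        have : 2 * C1 ≤ B * lam := by linarith
        gcongr
      have b3 : (U : ℝ) ^ (N' + 1) ≤ U * m := by
        rw [hmv, pow_succ]
        have : (U : ℝ) ^ N' ≤ c0 * (U : ℝ) ^ N' := by
          have : 1 * (U : ℝ) ^ N' ≤ c0 * (U : ℝ) ^ N' := by gcongr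
          linarith
        calc (U : ℝ) ^ N' * U ≤ (c0 * (U : ℝ) ^ N') * U := by gcongr
          _ = U * (c0 * (U : ℝ) ^ N') := by ring
      have b4 : lam * (B * y) ≤ lam * (U * m) :=
        mul_le_mul_of_nonneg_left (hX1.trans b3) hlam.le
      have b5 : B * lam * y = lam * (B * y) := by ring
      linarith
    have h3 : C1 * (1 + κ * m + (Real.log m + Real.log D)) =
        C1 * (1 + κ * m + Real.log m) + C1 * Real.log D := by ring
    rw [h3]
    linarith
  · push_cast
    rw [← e2]
    have h1 : (U : ℝ) ^ N' ≤ (2 * B) ^ N' * r ^ N' := by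
      rw [← mul_pow]
      exact pow_le_pow_left₀ (by positivity) hUle _
    calc (c0 : ℝ) * (U : ℝ) ^ N' ≤ c0 * ((2 * B) ^ N' * r ^ N') := by gcongr
      _ = _ := by ring

end Pool.DynLehmer.SB
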