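import Pool.Agent.Lib.MP_2194ec_nt.SB.Iface

set_option autoImplicit false

/-!
# Module RANK
-/

namespace Pool.DynLehmer.SB
open MvPolynomial Pool.DynLehmer
open scoped Classical

/-- forms of a fixed degree are a finite-dimensional space -/
theorem finite_hom' (K : Type) [Field K] (ι : Type) [Fintype ι] (T : ℕ) :
    Module.Finite K (homogeneousSubmodule ι K T) := by
  have h1 : homogeneousSubmodule ι K T = restrictSupport K {d | d.degree = T} :=
    homogeneousSubmodule_eq_finsupp_supported ι K T
  rw [h1]
  have h2 : {d : ι →₀ ℕ | d.degree = T} =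
      ((Finset.univ : Finset ι).finsuppAntidiag T : Set (ι →₀ ℕ)) := by
    ext d
    simp [Finsupp.degree_eq_sum]
  haveI : Finite {d : ι →₀ ℕ | d.degree = T} := by
    rw [h2]
    exact Finset.finite_toSet _
  exact Module.Finite.of_basis (basisRestrictSupport K {d : ι →₀ ℕ | d.degree = T})

theorem rank : RankStatement := by
  intro K _ L _ _ N _ _ ι _ y κ _ φ T
  haveI : Fintype κ := Fintype.ofFinite κ
  haveI : Module.Finite K (VW K y T) := by
    haveI := finite_hom' K ι T
    unfold VW
    infer_instance
  set b := Module.finBasis K (VW K y T) with hb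
  set Φ : L → κ → N := fun a k => φ k a with hΦ
  have hmem : ∀ v ∈ VW K y T, Φ v ∈ Submodule.span N (Set.range fun i => Φ (b i : L)) := by
    intro v hv
    have h1 : v = ∑ i, (b.repr ⟨v, hv⟩ i) • (b i : L) := by
      have h2 := b.sum_repr ⟨v, hv⟩
      have h3 := congrArg (VW K y T).subtype h2
      rw [map_sum] at h3
      simp only [map_smul, Submodule.subtype_apply] at h3
      exact h3.symm
    have h4 : Φ v = ∑ i, (algebraMap K N (b.repr ⟨v, hv⟩ i)) • Φ (b i : L) := by
      funext k
      simp only [hΦ, Finset.sum_apply, Pi.smul_apply, smul_eq_mul]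
      conv_lhs => rw [h1]
      rw [map_sum]
      refine Finset.sum_congr rfl (fun i _ => ?_)
      rw [map_smul, Algebra.smul_def]
    rw [h4]
    exact Submodule.sum_mem _ (fun i _ => Submodule.smul_mem _ _
      (Submodule.subset_span ⟨i, rfl⟩))
  have hle : HV (fun k t => φ k (y t)) T ≤
      Submodule.span N (Set.range fun i => Φ (b i : L)) := by
    rintro _ ⟨P, hP, rfl⟩
    rw [P.as_sum, map_sum]
    refine Submodule.sum_mem _ (fun d hd => ?_)
    have hdeg : d.degree = T := by
      have h5 := (mem_homogeneousSubmodule _ _).1 hP (mem_support_iff.1 hd)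
      rw [← h5]
      simp [Finsupp.weight_apply, Finsupp.degree, Finsupp.sum]
    have h6 : ev (fun k t => φ k (y t)) (monomial d (coeff d P)) =
        coeff d P • Φ (aeval y (monomial d (1 : K))) := by
      funext k
      rw [ev_apply]
      simp only [hΦ, Pi.smul_apply, smul_eq_mul]
      rw [eval_monomial, aeval_monomial, map_one, one_mul, Finsupp.prod, Finsupp.prod, map_prod]
      simp
    rw [h6]
    refine Submodule.smul_mem _ _ (hmem _ ⟨monomial d 1, ?_, rfl⟩)
    exact (mem_homogeneousSubmodule _ _).2 (isHomogeneous_monomial _ hdeg)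
  have h7 := Submodule.finrank_mono hle
  have h8 : Module.finrank N (Submodule.span N (Set.range fun i => Φ (b i : L))) ≤
      Fintype.card (Fin (Module.finrank K (VW K y T))) := finrank_range_le_card _
  rw [Fintype.card_fin] at h8
  exact h7.trans h8

end Pool.DynLehmer.SB
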